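import Pool.Agent.Y771.NF.Newf
import Pool.Agent.W482.TW.Id2
import Pool.Agent.W688.TW.Kara
import Pool.Agent.W688.TW.Sel
import Pool.Agent.W54.TW.Unfold
import Pool.Agent.W54.TW.EisPairs
import Pool.Agent.W409.TW.EisLim
import Pool.Agent.W749.TW.EisBd
import Pool.Agent.W375.TW.Cusp
import Pool.Agent.W388.TW.XPars
import Pool.Agent.W438.TW.RS4

set_option autoImplicit false

/-!
# Every holomorphic newform of trivial character is an instance of `Frm`
-/

namespace Pool.Agent.Y771.NF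

open UpperHalfPlane hiding I
open MatrixGroups CongruenceSubgroup Filter Topology Complex
open Pool.Agent.Y671.GL
open scoped ComplexConjugate

theorem p_sel : W388.StSel := W688.TW.t_sel Pool.Agent.W482.TW.t_id2 W688.TW.t_kara

theorem p_rs : W388.StRS := Pool.Agent.W438.TW.t_rs W54.TW.t_unfold W54.TW.t_eispairs
  Pool.Agent.W409.TW.t_eislim Pool.Agent.W749.TW.t_eisbd W388.t_cusp W388.XPars.t_pars

variable {N : ℕ} [NeZero N] {k : ℕ} {f : CuspForm (Gamma0 N : Subgroup (GL (Fin 2) ℝ)) (k : ℤ)} {ε : ℝ}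

theorem heckeSeq (hf : W388.IsNewf N k f ε) : W388.HeckeSeq N (W388.lamf f) where
  zero := by
    unfold W388.lamf
    rw [coeff_zero]
    simp
  one := by
    unfold W388.lamf
    rw [hf.one]
    simp
  mul m n h := by
    unfold W388.lamf
    rw [hf.mul m n h, Nat.cast_mul, Real.mul_rpow (by positivity) (by positivity)]
    rw [coeff_real hf m, coeff_real hf n, ← Complex.ofReal_mul]
    simp only [Complex.ofReal_re]
    rw [mul_div_mul_comm]
  pow p j hp := by
    have hp0 : (0 : ℝ) < p := by exact_mod_cast hp.pos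
    obtain ⟨x, hx⟩ : ∃ x : ℝ, x = (((k : ℤ) : ℝ) - 1) / 2 := ⟨_, rfl⟩
    obtain ⟨P, hP⟩ : ∃ P : ℝ, P = (p : ℝ) ^ x := ⟨_, rfl⟩
    have hPp : 0 < P := by rw [hP]; exact Real.rpow_pos_of_pos hp0 _
    have hpow : ∀ i : ℕ, ((p ^ i : ℕ) : ℝ) ^ x = P ^ i := by
      intro i
      rw [hP, Nat.cast_pow, ← Real.rpow_natCast, ← Real.rpow_natCast, ← Real.rpow_mul hp0.le,
        ← Real.rpow_mul hp0.le, mul_comm]
    have hP2 : P ^ 2 = (p : ℝ) ^ ((k : ℤ) - 1) := by
      rw [hP, ← Real.rpow_natCast, ← Real.rpow_mul hp0.le, hx, ← Real.rpow_intCast]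
      congr 1
      push_cast
      ring
    have hre : ((qExpansion 1 f).coeff (p ^ (j + 2))).re =
        ((qExpansion 1 f).coeff p).re * ((qExpansion 1 f).coeff (p ^ (j + 1))).re -
        (if p ∣ N then 0 else P ^ 2 * ((qExpansion 1 f).coeff (p ^ j)).re) := by
      rw [hf.pow p j hp, hP2]
      rw [coeff_real hf p, coeff_real hf (p ^ (j + 1)), coeff_real hf (p ^ j)]
      split_ifs
      · rw [← Complex.ofReal_mul, sub_zero, sub_zero]
        simp
      · have e : (p : ℂ) ^ ((k : ℤ) - 1) = (((p : ℝ) ^ ((k : ℤ) - 1) : ℝ) : ℂ) := by push_cast; rfl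
        rw [e, ← Complex.ofReal_mul, ← Complex.ofReal_mul, ← Complex.ofReal_sub, Complex.ofReal_re]
        simp only [Complex.ofReal_re]
    have h1 : W388.lamf f (p ^ (j + 2)) = ((qExpansion 1 f).coeff (p ^ (j + 2))).re / P ^ (j + 2) := by
      unfold W388.lamf
      rw [← hx, hpow]
    have h2 : W388.lamf f (p ^ (j + 1)) = ((qExpansion 1 f).coeff (p ^ (j + 1))).re / P ^ (j + 1) := by
      unfold W388.lamf
      rw [← hx, hpow]
    have h3 : W388.lamf f (p ^ j) = ((qExpansion 1 f).coeff (p ^ j)).re / P ^ j := by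
      unfold W388.lamf
      rw [← hx, hpow]
    have h4 : W388.lamf f p = ((qExpansion 1 f).coeff p).re / P := by
      unfold W388.lamf
      rw [← hx, hP]
    rw [h1, h2, h3, h4, hre]
    split_ifs
    · field_simp
      ring
    · field_simp
      ring

omit [NeZero N] in
/-- the mean square over the primes -/
theorem rs_of_sel {lam : ℕ → ℝ} (hS : W388.SelE (fun n => (W388.cS N lam n : ℂ))) :
    ∃ C : ℝ, ∀ x : ℝ, 2 ≤ x →
    ∑ p ∈ (Finset.Icc 1 ⌊x⌋₊).filter Nat.Prime, ‖(lam p : ℂ)‖ ^ 2 * Real.log p / p ≤ 4 * Real.log x + C := by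
  unfold W388.SelE at hS
  obtain ⟨S, hSd⟩ : ∃ S : ℝ → ℝ, S = fun x : ℝ => ∑ n ∈ Finset.Icc 1 ⌊x⌋₊,
    ArithmeticFunction.vonMangoldt n * ‖(W388.cS N lam n : ℂ)‖ ^ 2 / n := ⟨_, rfl⟩
  have hS' : Tendsto (fun x : ℝ => S x / Real.log x) atTop (𝓝 1) := by rw [hSd]; exact hS
  have h1 : ∀ᶠ x : ℝ in atTop, S x / Real.log x < 2 := hS'.eventually_lt_const (by norm_num)
  obtain ⟨X0, hX0⟩ := Filter.eventually_atTop.1 h1
  have hterm : ∀ n : ℕ, 0 ≤ ArithmeticFunction.vonMangoldt n * ‖(W388.cS N lam n : ℂ)‖ ^ 2 / n := fun n =>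
    div_nonneg (mul_nonneg ArithmeticFunction.vonMangoldt_nonneg (sq_nonneg _)) (Nat.cast_nonneg _)
  have hmono : ∀ x y : ℝ, x ≤ y → S x ≤ S y := by
    intro x y hxy
    rw [hSd]
    refine Finset.sum_le_sum_of_subset_of_nonneg ?_ fun n _ _ => hterm n
    exact Finset.Icc_subset_Icc_right (Nat.floor_le_floor hxy)
  have hnn : ∀ x, 0 ≤ S x := fun x => by rw [hSd]; exact Finset.sum_nonneg fun n _ => hterm n
  refine ⟨S (max X0 2), fun x hx => ?_⟩
  have hlx : 0 ≤ Real.log x := Real.log_nonneg (by linarith)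
  have h2 : ∑ p ∈ (Finset.Icc 1 ⌊x⌋₊).filter Nat.Prime, ‖(lam p : ℂ)‖ ^ 2 * Real.log p / p ≤ S x := by
    rw [hSd]
    have h3 : ∑ p ∈ (Finset.Icc 1 ⌊x⌋₊).filter Nat.Prime, ‖(lam p : ℂ)‖ ^ 2 * Real.log p / p =
        ∑ p ∈ (Finset.Icc 1 ⌊x⌋₊).filter Nat.Prime,
          ArithmeticFunction.vonMangoldt p * ‖(W388.cS N lam p : ℂ)‖ ^ 2 / p := by
      refine Finset.sum_congr rfl fun p hp => ?_
      rw [Finset.mem_filter] at hp
      have hpp := hp.2
      have e1 : W388.cS N lam p = lam p := by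
        unfold W388.cS
        rw [if_neg, sub_zero]
        rintro ⟨h4, _⟩
        rw [hpp.minFac_eq] at h4
        have h5 := Nat.le_of_dvd hpp.pos h4
        have h6 := hpp.two_le
        nlinarith
      rw [e1, ArithmeticFunction.vonMangoldt_apply_prime hpp]
      ring
    rw [h3]
    exact Finset.sum_le_sum_of_subset_of_nonneg (Finset.filter_subset _ _) fun n _ _ => hterm n
  refine h2.trans ?_
  rcases le_or_gt (max X0 2) x with h3 | h3
  · have h4 := hX0 x ((le_max_left _ _).trans h3)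
    have hl : 0 < Real.log x := Real.log_pos (by linarith [le_max_right X0 2])
    rw [div_lt_iff₀ hl] at h4
    have := hnn (max X0 2)
    linarith
  · have := hmono x _ h3.le
    linarith

/-- **Every newform is a form.** -/
theorem frm_newf (hk : 1 ≤ k) (hf : W388.IsNewf N k f ε) : Frm k N (psN N) (lm f) := by
  have hP := pre_lm hk hf
  have hH := heckeSeq hf
  have hk' : (1 : ℤ) ≤ (k : ℤ) := by exact_mod_cast hk
  have hR := p_rs N k hk' f ε hf
  have hS := (p_sel N (Nat.pos_of_ne_zero (NeZero.ne N)) (W388.lamf f) hH hR).1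
  refine ⟨hP.k_pos, hP.N_pos, hP.zero, ?_, ?_, ?_, ?_, hP.ram, ?_, hP.bd, ?_, ?_⟩
  · unfold lm
    rw [hH.one]
    simp
  · intro m n hmn
    unfold lm
    rw [hH.mul m n hmn]
    push_cast
    ring
  · intro p j hp
    unfold lm psN
    rw [hH.pow p j hp]
    split_ifs
    · push_cast
      ring
    · push_cast
      ring
  · intro p
    unfold psN
    split_ifs <;> simp
  · exact rs_of_sel hS
  · refine ⟨fun _ => 1, fun a _ => norm_one, fun q a b hq hN hab z hz => ?_⟩
    rw [one_mul]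
    exact hP.cusp q a b hq hN hab z hz
  · refine ⟨(ε : ℂ), ?_, fun z hz => fricke_lm hf z hz⟩
    rcases hf.sign with h | h
    · rw [h]; simp
    · rw [h]; simp

end Pool.Agent.Y771.NF
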