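import Pool.Agent.Y671.GL.Spec6
import Pool.Agent.Y671.GL.Ne
import Pool.Agent.W605.SD.FinA
import Pool.Agent.Y671.GL.Hdx

set_option autoImplicit false

/-!
# Counting the exceptional zeros: derivatives and heat flow, with proportions
-/

namespace Pool.Agent.Y771.NF.Cnt

open Filter Topology Complex MeasureTheory Set
open Pool.Agent.Y671.GL
open Pool.Agent.Y671.LD (bad badH)
open Pool.Agent.W169.HF (heat)

/-- `g z = v x (i z)`: orders -/
lemma order_rot {x g : ℂ → ℂ} {v : ℂ} (hv : v ≠ 0) (hx : Differentiable ℂ x) (hg : ∀ z, g z = v * x (I * z))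
    (z : ℂ) : analyticOrderNatAt g z = analyticOrderNatAt x (I * z) := by
  have h1 : g = (fun _ => v) * (x ∘ fun z => I * z) := by
    funext z
    rw [hg z]
    rfl
  have hg1 : AnalyticAt ℂ (fun z : ℂ => I * z) z := by fun_prop
  have hg' : deriv (fun z : ℂ => I * z) z ≠ 0 := by
    rw [deriv_const_mul _ differentiableAt_id]
    simp
  have h2 : analyticOrderAt (x ∘ fun z => I * z) z = analyticOrderAt x (I * z) :=
    analyticOrderAt_comp_of_deriv_ne_zero hg1 hg'
  have h3 : analyticOrderAt (fun _ : ℂ => v) z = 0 := by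
    rw [AnalyticAt.analyticOrderAt_eq_zero analyticAt_const]
    exact hv
  have h4 : analyticOrderAt g z = analyticOrderAt x (I * z) := by
    rw [h1, analyticOrderAt_mul analyticAt_const ((hx.analyticAt _).comp hg1), h2, h3, zero_add]
  unfold analyticOrderNatAt
  rw [h4]

lemma rot_im (z : ℂ) : (I * z).im = z.re := by simp

lemma rot_re (z : ℂ) : (I * z).re = -z.im := by simp

lemma rot_inv (z : ℂ) : I * (-I * z) = z := by
  have : I * I = -1 := I_mul_I
  linear_combination -(z : ℂ) * this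

/-- the number of points of `A` with multiplicities -/
noncomputable def num (g : ℂ → ℂ) (A : Set ℂ) : ℕ := ∑ᶠ z ∈ A, analyticOrderNatAt g z

theorem num_eq {g : ℂ → ℂ} {A : Set ℂ} (hA : A.Finite) :
    (num g A : ℝ) = ∑ s ∈ hA.toFinset, (analyticOrderNatAt g s : ℝ) := by
  unfold num
  rw [finsum_mem_eq_finite_toFinset_sum _ hA]
  push_cast
  rfl

theorem num_mono {g : ℂ → ℂ} {A B : Set ℂ} (hB : B.Finite) (h : A ⊆ B) : (num g A : ℝ) ≤ num g B := by
  rw [num_eq hB, num_eq (hB.subset h)]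
  apply Finset.sum_le_sum_of_subset_of_nonneg
  · intro s hs
    rw [Set.Finite.mem_toFinset] at hs ⊢
    exact h hs
  · intro _ _ _
    exact Nat.cast_nonneg _

theorem num_empty (g : ℂ → ℂ) : (num g ∅ : ℝ) = 0 := by
  unfold num
  simp

lemma rot_inj (S : Set ℂ) : Set.InjOn (fun z : ℂ => I * z) S := by
  intro a _ b _ hab
  exact mul_left_cancel₀ I_ne_zero hab

lemma rot_inj' (S : Set ℂ) : Set.InjOn (fun z : ℂ => -I * z) S := by
  intro a _ b _ hab
  exact mul_left_cancel₀ (neg_ne_zero.2 I_ne_zero) hab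

theorem num_rot {x g : ℂ → ℂ} {v : ℂ} (hv : v ≠ 0) (hx : Differentiable ℂ x) (hg : ∀ z, g z = v * x (I * z))
    {A : Set ℂ} (hA : A.Finite) : (num g A : ℝ) =
    ∑ s ∈ hA.toFinset.image (fun z => I * z), (analyticOrderNatAt x s : ℝ) := by
  rw [num_eq hA, Finset.sum_image (rot_inj _)]
  exact Finset.sum_congr rfl fun s _ => by rw [order_rot hv hx hg]

/-- zeros in a bounded part of the strip -/
theorem fin_rot {x g : ℂ → ℂ} {v : ℂ} (hv : v ≠ 0) (hx : Differentiable ℂ x) (hg : ∀ z, g z = v * x (I * z))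
    (hst : ∀ s, x s = 0 → |s.re| ≤ 1 / 2) (a b : ℝ) : {z : ℂ | g z = 0 ∧ a ≤ z.re ∧ z.re ≤ b}.Finite := by
  have hne : x 1 ≠ 0 := by
    intro h0
    have := hst 1 h0
    norm_num at this
  have hK : IsCompact (Icc (-(1 / 2 : ℝ)) (1 / 2) ×ℂ Icc a b) := isCompact_Icc.reProdIm isCompact_Icc
  have hfin := Pool.Agent.W605.SD.fin_zeros hx hne hK
  refine (hfin.image (fun s => -I * s)).subset ?_
  rintro z ⟨h1, h2, h3⟩
  rw [hg z] at h1
  have h4 : x (I * z) = 0 := (mul_eq_zero.1 h1).resolve_left hv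
  refine ⟨I * z, ⟨?_, h4⟩, ?_⟩
  · rw [mem_reProdIm, rot_im]
    have := abs_le.1 (hst _ h4)
    exact ⟨⟨this.1, this.2⟩, h2, h3⟩
  · show -I * (I * z) = z
    have : I * I = -1 := I_mul_I
    linear_combination -(z : ℂ) * this

theorem num_ge {x g : ℂ → ℂ} {v : ℂ} (hv : v ≠ 0) (hx : Differentiable ℂ x) (hg : ∀ z, g z = v * x (I * z))
    {A : Set ℂ} (hA : A.Finite) {S : Finset ℂ} (hS : ∀ s ∈ S, -I * s ∈ A) :
    ∑ s ∈ S, (analyticOrderNatAt x s : ℝ) ≤ num g A := by
  classical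
  rw [num_rot hv hx hg hA]
  refine Finset.sum_le_sum_of_subset_of_nonneg ?_ fun _ _ _ => Nat.cast_nonneg _
  intro s hs
  rw [Finset.mem_image]
  refine ⟨-I * s, ?_, rot_inv s⟩
  rw [Set.Finite.mem_toFinset]
  exact hS s hs

theorem num_le {x g : ℂ → ℂ} {v : ℂ} (hv : v ≠ 0) (hx : Differentiable ℂ x) (hg : ∀ z, g z = v * x (I * z))
    {A : Set ℂ} (hA : A.Finite) {P : ℂ → Prop} (hP : ∀ z ∈ A, P (I * z)) {M : ℝ}
    (h : ∀ S : Finset ℂ, (∀ s ∈ S, P s) → ∑ s ∈ S, (analyticOrderNatAt x s : ℝ) ≤ M) :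
    (num g A : ℝ) ≤ M := by
  classical
  rw [num_rot hv hx hg hA]
  apply h
  intro s hs
  obtain ⟨z, hz, rfl⟩ := Finset.mem_image.1 hs
  rw [Set.Finite.mem_toFinset] at hz
  exact hP z hz

/-! ## Derivatives -/

/-- Zeros of the `n`-th derivative of `G` with real part in `(0, T]`. -/
def ZerD (G : ℂ → ℂ) (n : ℕ) (T : ℝ) : Set ℂ := {z | iteratedDeriv n G z = 0 ∧ 0 < z.re ∧ z.re ≤ T}

/-- Those which are not real or not simple. -/
def ExcD (G : ℂ → ℂ) (n : ℕ) (T : ℝ) : Set ℂ :=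
  {z | z ∈ ZerD G n T ∧ (z.im ≠ 0 ∨ iteratedDeriv (n + 1) G z = 0)}

theorem main_d {X G : ℂ → ℂ} {v : ℂ} (hv : v ≠ 0) (hG : ∀ z, G z = v * X (I * z)) (hX : Differentiable ℂ X)
    (happ : AppX X)
    (hdd : ∃ c C : ℝ, 0 < c ∧ 0 < C ∧ ∀ (n : ℕ) (T : ℝ), 2 ≤ T → ∀ S : Finset ℂ,
      (∀ s ∈ S, bad X n s ∧ 0 < s.im ∧ s.im ≤ T) →
      ∑ s ∈ S, (analyticOrderNatAt (iteratedDeriv n X) s : ℝ) ≤ C * T * Real.log T * Real.exp (-(c * n)))
    (hlow : LowX X)
    (htot : ∀ K : ℝ, 1 ≤ K → ∃ c T0 : ℝ, 0 < c ∧ 2 ≤ T0 ∧ ∀ (n : ℕ) (T : ℝ), T0 ≤ T → (n : ℝ) ≤ K * Real.log T →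
      ∃ S : Finset ℂ, (∀ s ∈ S, iteratedDeriv n X s = 0 ∧ 0 < s.im ∧ s.im ≤ T) ∧
        c * T * Real.log T ≤ ∑ s ∈ S, (analyticOrderNatAt (iteratedDeriv n X) s : ℝ)) :
    (∀ (n : ℕ) (T : ℝ), (ZerD G n T).Finite) ∧
    ∃ c C : ℝ, 0 < c ∧ 0 < C ∧
      (∀ (n : ℕ) (T : ℝ), (num (iteratedDeriv n G) (ExcD G n T) : ℝ) ≤
        C * Real.exp (-(c * n)) * num (iteratedDeriv n G) (ZerD G n T)) ∧
      (∀ (n : ℕ) (T : ℝ), 2 ≤ T → (num (iteratedDeriv n G) (ExcD G n T) : ℝ) ≤
        C * Real.exp (-(c * n)) * T * Real.log T) := by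
  have hder : ∀ (n : ℕ) (z : ℂ), iteratedDeriv n G z = v * I ^ n * iteratedDeriv n X (I * z) := by
    intro n z
    have h1 : G = fun z => v * X (I * z) := funext hG
    have h2 : ContDiff ℂ (n : WithTop ℕ∞) (fun z => X (I * z)) :=
      hX.contDiff.comp (contDiff_const.mul contDiff_id)
    rw [h1, iteratedDeriv_const_mul v h2.contDiffAt]
    have h3 := congrFun (iteratedDeriv_comp_const_mul (n := n) (f := X) hX.contDiff I) z
    rw [h3]
    ring
  have hvn : ∀ n : ℕ, v * I ^ n ≠ 0 := fun n => mul_ne_zero hv (pow_ne_zero n I_ne_zero)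
  have hXn : ∀ n, Differentiable ℂ (iteratedDeriv n X) := fun n => Pool.Agent.H24R2.JP.ParCircAux.diff_iter hX n
  have hne : ∀ n, ∃ p, iteratedDeriv n X p ≠ 0 := by
    intro n
    by_contra hcon
    push Not at hcon
    obtain ⟨c, T0, hc, hT0, h⟩ := htot 1 le_rfl
    obtain ⟨T, hT⟩ : ∃ T : ℝ, T = max T0 (Real.exp n) := ⟨_, rfl⟩
    have h1 : T0 ≤ T := by rw [hT]; exact le_max_left _ _
    have h2 : Real.exp n ≤ T := by rw [hT]; exact le_max_right _ _
    have hTp : 0 < T := by linarith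
    have h3 : (n : ℝ) ≤ 1 * Real.log T := by
      rw [one_mul, Real.le_log_iff_exp_le hTp]
      exact h2
    obtain ⟨S, -, hS⟩ := h n T h1 h3
    have h4 : ∀ s, analyticOrderNatAt (iteratedDeriv n X) s = 0 := by
      intro s
      have : iteratedDeriv n X = fun _ => 0 := funext hcon
      rw [this]
      unfold analyticOrderNatAt
      have h5 : analyticOrderAt (fun _ : ℂ => (0 : ℂ)) s = ⊤ := by
        rw [analyticOrderAt_eq_top]
        exact Eventually.of_forall fun _ => rfl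
      rw [h5]
      rfl
    rw [Finset.sum_congr rfl fun s _ => by rw [h4 s]] at hS
    simp only [CharP.cast_eq_zero, Finset.sum_const_zero] at hS
    have h5 : 0 < Real.log T := Real.log_pos (by linarith)
    have h6 : 0 < c * T * Real.log T := by positivity
    linarith
  have hst : ∀ (n : ℕ) (s : ℂ), iteratedDeriv n X s = 0 → |s.re| ≤ 1 / 2 := strip_of_app' hX happ hne
  have hfin : ∀ (n : ℕ) (T : ℝ), (ZerD G n T).Finite := by
    intro n T
    refine (fin_rot (hvn n) (hXn n) (hder n) (hst n) 0 T).subset ?_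
    rintro z ⟨h1, h2, h3⟩
    exact ⟨h1, h2.le, h3⟩
  have hsub : ∀ (n : ℕ) (T : ℝ), ExcD G n T ⊆ ZerD G n T := fun n T z hz => hz.1
  have hEf : ∀ (n : ℕ) (T : ℝ), (ExcD G n T).Finite := fun n T => (hfin n T).subset (hsub n T)
  have hzero : ∀ (n : ℕ) (z : ℂ), iteratedDeriv n G z = 0 ↔ iteratedDeriv n X (I * z) = 0 := by
    intro n z
    rw [hder n z, mul_eq_zero]
    exact ⟨fun h => h.resolve_left (hvn n), Or.inr⟩
  have hbad : ∀ (n : ℕ) (T : ℝ) (z : ℂ), z ∈ ExcD G n T → bad X n (I * z) ∧ 0 < (I * z).im ∧ (I * z).im ≤ T := by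
    rintro n T z ⟨⟨h1, h2, h3⟩, h4⟩
    refine ⟨⟨(hzero n z).1 h1, ?_⟩, by rw [rot_im]; exact h2, by rw [rot_im]; exact h3⟩
    rcases h4 with h4 | h4
    · left
      rw [rot_re]
      exact neg_ne_zero.2 h4
    · right
      exact (hzero (n + 1) z).1 h4
  refine ⟨hfin, ?_⟩
  obtain ⟨c, C, hc, hC, hdd⟩ := hdd
  obtain ⟨K1, hK1, N1, hlow⟩ := hlow
  obtain ⟨c2, T0, hc2, hT0, htot⟩ := htot (max K1 1) (le_max_right _ _)
  have hexc : ∀ (n : ℕ) (T : ℝ), 2 ≤ T → (num (iteratedDeriv n G) (ExcD G n T) : ℝ) ≤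
      C * T * Real.log T * Real.exp (-(c * n)) := fun n T hT =>
    num_le (hvn n) (hXn n) (hder n) (hEf n T) (hbad n T) (hdd n T hT)
  obtain ⟨N2, hN2⟩ : ∃ N2 : ℕ, ∀ n : ℕ, N2 ≤ n → T0 ≤ Real.exp (n / K1) := by
    have h1 : Tendsto (fun n : ℕ => Real.exp ((n : ℝ) / K1)) atTop atTop :=
      Real.tendsto_exp_atTop.comp (tendsto_natCast_atTop_atTop.atTop_div_const hK1)
    obtain ⟨N', h⟩ := (h1.eventually_ge_atTop T0).exists_forall_of_atTop
    exact ⟨N', h⟩
  refine ⟨c, C + C / c2 + Real.exp (c * (max N1 N2 : ℕ)), hc, by positivity, ?_, ?_⟩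
  · intro n T
    have hE := Real.exp_pos (-(c * n))
    have hZ0 : (0 : ℝ) ≤ num (iteratedDeriv n G) (ZerD G n T) := Nat.cast_nonneg _
    rcases lt_or_ge n (max N1 N2) with hn | hn
    · have h4 : 1 ≤ Real.exp (c * (max N1 N2 : ℕ)) * Real.exp (-(c * n)) := by
        rw [← Real.exp_add]
        apply Real.one_le_exp
        have : (n : ℝ) ≤ (max N1 N2 : ℕ) := by exact_mod_cast hn.le
        nlinarith
      calc (num (iteratedDeriv n G) (ExcD G n T) : ℝ) ≤ num (iteratedDeriv n G) (ZerD G n T) :=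
            num_mono (hfin n T) (hsub n T)
        _ = 1 * num (iteratedDeriv n G) (ZerD G n T) := by ring
        _ ≤ (Real.exp (c * (max N1 N2 : ℕ)) * Real.exp (-(c * n))) * num (iteratedDeriv n G) (ZerD G n T) := by
          gcongr
        _ ≤ _ := by
          have : 0 ≤ (C + C / c2) * Real.exp (-(c * n)) * num (iteratedDeriv n G) (ZerD G n T) := by positivity
          linarith
    · rcases le_or_gt T (Real.exp (n / K1)) with hT | hT
      · have h5 : ExcD G n T = ∅ := by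
          rw [Set.eq_empty_iff_forall_notMem]
          intro z hz
          obtain ⟨h6, h7, h8⟩ := hbad n T z hz
          refine hlow n ((le_max_left _ _).trans hn) (I * z) ?_ h6
          rw [abs_of_pos h7]
          exact h8.trans hT
        rw [h5, num_empty]
        positivity
      · have h5 := hN2 n ((le_max_right _ _).trans hn)
        have hT1 : T0 ≤ T := by linarith
        have hT3 : 2 ≤ T := by linarith
        have hl : (n : ℝ) / K1 < Real.log T := by
          rw [Real.lt_log_iff_exp_lt (by linarith)]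
          exact hT
        have hl0 : 0 < Real.log T := Real.log_pos (by linarith)
        have h6 : (n : ℝ) ≤ max K1 1 * Real.log T := by
          rw [div_lt_iff₀ hK1] at hl
          have : Real.log T * K1 ≤ max K1 1 * Real.log T := by
            rw [mul_comm]
            exact mul_le_mul_of_nonneg_right (le_max_left _ _) hl0.le
          linarith
        obtain ⟨S, hS1, hS2⟩ := htot n T hT1 h6
        have h7 : c2 * T * Real.log T ≤ num (iteratedDeriv n G) (ZerD G n T) := by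
          refine hS2.trans (num_ge (hvn n) (hXn n) (hder n) (hfin n T) ?_)
          intro s hs
          obtain ⟨k1, k2, k3⟩ := hS1 s hs
          have e : (-I * s).re = s.im := by rw [← rot_im, rot_inv]
          refine ⟨by rw [hzero, rot_inv]; exact k1, by rw [e]; exact k2, by rw [e]; exact k3⟩
        have h8 := hexc n T hT3
        have h9 : C * T * Real.log T * Real.exp (-(c * n)) ≤
            C / c2 * Real.exp (-(c * n)) * num (iteratedDeriv n G) (ZerD G n T) := by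
          calc C * T * Real.log T * Real.exp (-(c * n)) =
              C / c2 * Real.exp (-(c * n)) * (c2 * T * Real.log T) := by field_simp
            _ ≤ _ := by gcongr
        have h10 : 0 ≤ (C + Real.exp (c * (max N1 N2 : ℕ))) * Real.exp (-(c * n)) *
            num (iteratedDeriv n G) (ZerD G n T) := by
          positivity
        linarith
  · intro n T hT
    have hE := Real.exp_pos (-(c * n))
    have hl0 : 0 < Real.log T := Real.log_pos (by linarith)
    have h8 := hexc n T hT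
    have h9 : 0 ≤ (C / c2 + Real.exp (c * (max N1 N2 : ℕ))) * Real.exp (-(c * n)) * T * Real.log T := by
      positivity
    linarith

/-! ## Heat flow -/

/-- Zeros of `G` with real part in `(T, 2T]`. -/
def ZerH (G : ℂ → ℂ) (T : ℝ) : Set ℂ := {z | G z = 0 ∧ T < z.re ∧ z.re ≤ 2 * T}

/-- Those which are not real or not simple. -/
def ExcH (G : ℂ → ℂ) (T : ℝ) : Set ℂ := {z | z ∈ ZerH G T ∧ (z.im ≠ 0 ∨ deriv G z = 0)}

theorem main_h {X : ℂ → ℂ} {G : ℝ → ℂ → ℂ} {v : ℂ} (hv : v ≠ 0)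
    (hG : ∀ τ : ℝ, 0 ≤ τ → ∀ z, G τ z = v * heat τ X (I * z))
    (hX : ∀ τ : ℝ, 0 ≤ τ → Differentiable ℂ (heat τ X))
    (hst : ∀ (τ : ℝ) (s : ℂ), 0 ≤ τ → heat τ X s = 0 → |s.re| ≤ 1 / 2)
    (hdx : ∃ c C : ℝ, 0 < c ∧ 0 < C ∧ ∀ (T τ : ℝ), 2 ≤ T → 0 < τ → τ ≤ 1 / 8 → ∀ S : Finset ℂ,
      (∀ s ∈ S, badH (fun τ => heat τ X) τ s ∧ T < s.im ∧ s.im ≤ 2 * T) →
      ∑ s ∈ S, (analyticOrderNatAt (heat τ X) s : ℝ) ≤
        C * T * Real.log T * Real.exp (-(c * τ * Real.log T ^ 2)))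
    (hhuge : HugeX X)
    (htot : ∀ K : ℝ, 1 ≤ K → ∃ c T0 : ℝ, 0 < c ∧ 2 ≤ T0 ∧ ∀ T τ : ℝ, T0 ≤ T → 0 ≤ τ → τ ≤ 1 / 8 →
      τ * Real.log T ≤ K → ∃ S : Finset ℂ, (∀ s ∈ S, heat τ X s = 0 ∧ T < s.im ∧ s.im ≤ 2 * T) ∧
        c * T * Real.log T ≤ ∑ s ∈ S, (analyticOrderNatAt (heat τ X) s : ℝ)) :
    (∀ t T : ℝ, 0 ≤ t → (ZerH (G t) T).Finite) ∧
    ∃ c C : ℝ, 0 < c ∧ 0 < C ∧ ∀ t T : ℝ, 0 < t → t ≤ 1 / 8 → 2 ≤ T →
      (num (G t) (ExcH (G t) T) : ℝ) ≤ C * Real.exp (-(c * t * Real.log T ^ 2)) * num (G t) (ZerH (G t) T) ∧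
      (num (G t) (ExcH (G t) T) : ℝ) ≤ C * Real.exp (-(c * t * Real.log T ^ 2)) * T * Real.log T := by
  have hfin : ∀ t T : ℝ, 0 ≤ t → (ZerH (G t) T).Finite := by
    intro t T ht
    refine (fin_rot hv (hX t ht) (hG t ht) (hst t · ht) T (2 * T)).subset ?_
    rintro z ⟨h1, h2, h3⟩
    exact ⟨h1, h2.le, h3⟩
  have hsub : ∀ t T : ℝ, ExcH (G t) T ⊆ ZerH (G t) T := fun t T z hz => hz.1
  have hzero : ∀ (t : ℝ), 0 ≤ t → ∀ z : ℂ, G t z = 0 ↔ heat t X (I * z) = 0 := by
    intro t ht z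
    rw [hG t ht z, mul_eq_zero]
    exact ⟨fun h => h.resolve_left hv, Or.inr⟩
  have hder : ∀ (t : ℝ), 0 ≤ t → ∀ z : ℂ, deriv (G t) z = 0 ↔ deriv (heat t X) (I * z) = 0 := by
    intro t ht z
    have h1 : G t = fun z => v * heat t X (I * z) := funext (hG t ht)
    have h2 : HasDerivAt (fun z : ℂ => I * z) I z := by simpa using (hasDerivAt_id z).const_mul I
    have h3 : HasDerivAt (heat t X) (deriv (heat t X) (I * z)) (I * z) := ((hX t ht) _).hasDerivAt
    have h4 := ((h3.comp z h2).const_mul v).deriv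
    have h5 : deriv (G t) z = v * (deriv (heat t X) (I * z) * I) := by
      rw [h1]
      exact h4
    rw [h5, mul_eq_zero, mul_eq_zero]
    constructor
    · rintro (h | h | h)
      · exact absurd h hv
      · exact h
      · exact absurd h I_ne_zero
    · intro h
      exact Or.inr (Or.inl h)
  have hbad : ∀ (t T : ℝ), 0 ≤ t → ∀ z : ℂ, z ∈ ExcH (G t) T →
      badH (fun τ => heat τ X) t (I * z) ∧ T < (I * z).im ∧ (I * z).im ≤ 2 * T := by
    rintro t T ht z ⟨⟨h1, h2, h3⟩, h4⟩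
    refine ⟨⟨(hzero t ht z).1 h1, ?_⟩, by rw [rot_im]; exact h2, by rw [rot_im]; exact h3⟩
    rcases h4 with h4 | h4
    · left
      rw [rot_re]
      exact neg_ne_zero.2 h4
    · right
      exact (hder t ht z).1 h4
  refine ⟨hfin, ?_⟩
  obtain ⟨c, C, hc, hC, hdx⟩ := hdx
  obtain ⟨X0, T1, hX0, hT1, hhuge⟩ := hhuge
  obtain ⟨c2, T0, hc2, hT0, htot⟩ := htot X0 hX0
  have hexc : ∀ t T : ℝ, 0 < t → t ≤ 1 / 8 → 2 ≤ T →
      (num (G t) (ExcH (G t) T) : ℝ) ≤ C * T * Real.log T * Real.exp (-(c * t * Real.log T ^ 2)) := by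
    intro t T ht ht' hT
    exact num_le hv (hX t ht.le) (hG t ht.le) ((hfin t T ht.le).subset (hsub t T)) (hbad t T ht.le)
      (hdx T t hT ht ht')
  obtain ⟨M, hM⟩ : ∃ M : ℝ, M = max T0 T1 := ⟨_, rfl⟩
  have hM2 : 2 ≤ M := by rw [hM]; exact hT0.trans (le_max_left _ _)
  refine ⟨c, C + C / c2 + Real.exp (c * Real.log M ^ 2), hc, by positivity, ?_⟩
  intro t T ht ht' hT
  have hE := Real.exp_pos (-(c * t * Real.log T ^ 2))
  have hl0 : 0 < Real.log T := Real.log_pos (by linarith)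
  have hZ0 : (0 : ℝ) ≤ num (G t) (ZerH (G t) T) := Nat.cast_nonneg _
  have hT00 : 0 < T := by linarith
  refine ⟨?_, ?_⟩
  · rcases lt_or_ge T M with hT1' | hT1'
    · have h4 : 1 ≤ Real.exp (c * Real.log M ^ 2) * Real.exp (-(c * t * Real.log T ^ 2)) := by
        rw [← Real.exp_add]
        apply Real.one_le_exp
        have h5 : Real.log T ≤ Real.log M := Real.log_le_log hT00 hT1'.le
        have h6 : Real.log T ^ 2 ≤ Real.log M ^ 2 := by
          apply pow_le_pow_left₀ hl0.le h5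
        have h7 : t * Real.log T ^ 2 ≤ 1 * Real.log M ^ 2 := by
          apply mul_le_mul (by linarith) h6 (by positivity) (by norm_num)
        nlinarith
      calc (num (G t) (ExcH (G t) T) : ℝ) ≤ num (G t) (ZerH (G t) T) :=
            num_mono (hfin t T ht.le) (hsub t T)
        _ = 1 * num (G t) (ZerH (G t) T) := by ring
        _ ≤ (Real.exp (c * Real.log M ^ 2) * Real.exp (-(c * t * Real.log T ^ 2))) *
            num (G t) (ZerH (G t) T) := by gcongr
        _ ≤ _ := by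
          have : 0 ≤ (C + C / c2) * Real.exp (-(c * t * Real.log T ^ 2)) * num (G t) (ZerH (G t) T) := by
            positivity
          linarith
    · have hTT0 : T0 ≤ T := by rw [hM] at hT1'; exact (le_max_left _ _).trans hT1'
      have hTT1 : T1 ≤ T := by rw [hM] at hT1'; exact (le_max_right _ _).trans hT1'
      rcases le_or_gt (t * Real.log T) X0 with htX | htX
      · obtain ⟨S, hS1, hS2⟩ := htot T t hTT0 ht.le ht' htX
        have h7 : c2 * T * Real.log T ≤ num (G t) (ZerH (G t) T) := by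
          refine hS2.trans (num_ge hv (hX t ht.le) (hG t ht.le) (hfin t T ht.le) ?_)
          intro s hs
          obtain ⟨k1, k2, k3⟩ := hS1 s hs
          have e : (-I * s).re = s.im := by rw [← rot_im, rot_inv]
          refine ⟨by rw [hzero t ht.le, rot_inv]; exact k1, by rw [e]; exact k2, by rw [e]; exact k3⟩
        have h8 := hexc t T ht ht' hT
        have h9 : C * T * Real.log T * Real.exp (-(c * t * Real.log T ^ 2)) ≤
            C / c2 * Real.exp (-(c * t * Real.log T ^ 2)) * num (G t) (ZerH (G t) T) := by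
          calc C * T * Real.log T * Real.exp (-(c * t * Real.log T ^ 2)) =
              C / c2 * Real.exp (-(c * t * Real.log T ^ 2)) * (c2 * T * Real.log T) := by field_simp
            _ ≤ _ := by gcongr
        have h10 : 0 ≤ (C + Real.exp (c * Real.log M ^ 2)) * Real.exp (-(c * t * Real.log T ^ 2)) *
            num (G t) (ZerH (G t) T) := by
          positivity
        linarith
      · have h5 : ExcH (G t) T = ∅ := by
          rw [Set.eq_empty_iff_forall_notMem]
          intro z hz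
          obtain ⟨h6, h7, h8⟩ := hbad t T ht.le z hz
          refine hhuge (I * z).im t (I * z) (by linarith) ht ht' ?_ rfl h6
          have h9 : Real.log T ≤ Real.log (I * z).im := Real.log_le_log hT00 h7.le
          have h10 : t * Real.log T ≤ t * Real.log (I * z).im := mul_le_mul_of_nonneg_left h9 ht.le
          linarith
        rw [h5, num_empty]
        positivity
  · have h8 := hexc t T ht ht' hT
    have h9 : 0 ≤ (C / c2 + Real.exp (c * Real.log M ^ 2)) *
        Real.exp (-(c * t * Real.log T ^ 2)) * T * Real.log T := by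
      positivity
    linarith

end Pool.Agent.Y771.NF.Cnt
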