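import Pool.Agent.Y771.NF.Inst
import Pool.Agent.W97.TW.Delta
import Pool.Agent.W97.TW.Hecke
import Pool.Agent.H128R3.JD.DelHk

set_option autoImplicit false

/-!
# The discriminant is an instance
-/

namespace Pool.Agent.Y771.NF

open UpperHalfPlane hiding I
open MatrixGroups CongruenceSubgroup Filter Topology Complex
open Pool.Agent.Y671.GL
open Pool.Agent.W97.TW (deltaForm isNewform_delta)
open scoped ComplexConjugate

/-- a real power series that vanishes for `0 < r < 1` is zero -/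
theorem coeff_zero_of {c : ℕ → ℝ} (hs : ∀ r : ℝ, 0 < r → r < 1 → HasSum (fun n => c n * r ^ n) 0) (n : ℕ) :
    c n = 0 := by
  induction n using Nat.strong_induction_on with
  | _ n ih =>
    -- the shifted series
    have h1 : ∀ r : ℝ, 0 < r → r < 1 → HasSum (fun j => c (j + n) * r ^ j) 0 := by
      intro r hr hr1
      have h2 := (hasSum_nat_add_iff' n).2 (hs r hr hr1)
      rw [Finset.sum_eq_zero (fun i hi => by rw [ih i (Finset.mem_range.1 hi), zero_mul]), sub_zero] at h2
      have h3 := h2.mul_right ((r ^ n)⁻¹)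
      rw [zero_mul] at h3
      refine h3.congr_fun fun j => ?_
      have : r ^ n ≠ 0 := (pow_pos hr n).ne'
      rw [pow_add]
      field_simp
    have h4 := (h1 (1 / 2) (by norm_num) (by norm_num)).summable.abs
    obtain ⟨M, hM⟩ : ∃ M : ℝ, M = ∑' j, |c (j + n) * (1 / 2) ^ j| := ⟨_, rfl⟩
    have hM0 : 0 ≤ M := by rw [hM]; exact tsum_nonneg fun _ => abs_nonneg _
    have h5 : ∀ r : ℝ, 0 < r → r ≤ 1 / 2 → |c n| ≤ 2 * r * M := by
      intro r hr hr2
      have h6 := h1 r hr (by linarith)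
      have h7 := h6.summable.hasSum.unique h6
      have h8 := h6.summable.tsum_eq_zero_add
      rw [h7, pow_zero, mul_one, zero_add] at h8
      have h9 : c n = -∑' j, c (j + 1 + n) * r ^ (j + 1) := by linarith
      rw [h9, abs_neg]
      have h10 : Summable (fun j => |c (j + 1 + n) * (1 / 2) ^ (j + 1)|) :=
        (summable_nat_add_iff (f := fun j => |c (j + n) * (1 / 2) ^ j|) 1).2 h4
      have h11 : ∀ j : ℕ, |c (j + 1 + n) * r ^ (j + 1)| ≤ 2 * r * |c (j + 1 + n) * (1 / 2) ^ (j + 1)| := by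
        intro j
        rw [abs_mul, abs_mul, abs_pow, abs_pow, abs_of_pos hr, abs_of_pos (by norm_num : (0 : ℝ) < 1 / 2)]
        have h12 : r ^ (j + 1) ≤ 2 * r * (1 / 2) ^ (j + 1) := by
          have h13 : r ^ j ≤ (1 / 2) ^ j := pow_le_pow_left₀ hr.le hr2 j
          calc r ^ (j + 1) = r * r ^ j := by ring
            _ ≤ r * (1 / 2) ^ j := mul_le_mul_of_nonneg_left h13 hr.le
            _ = _ := by ring
        calc _ ≤ |c (j + 1 + n)| * (2 * r * (1 / 2) ^ (j + 1)) := mul_le_mul_of_nonneg_left h12 (abs_nonneg _)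
          _ = _ := by ring
      have h14 : Summable (fun j => 2 * r * |c (j + 1 + n) * (1 / 2) ^ (j + 1)|) := h10.mul_left _
      have h15 : ‖∑' j, c (j + 1 + n) * r ^ (j + 1)‖ ≤ ∑' j, 2 * r * |c (j + 1 + n) * (1 / 2) ^ (j + 1)| :=
        tsum_of_norm_bounded h14.hasSum fun j => by
          rw [Real.norm_eq_abs]
          exact h11 j
      rw [Real.norm_eq_abs] at h15
      refine h15.trans ?_
      rw [tsum_mul_left, hM]
      apply mul_le_mul_of_nonneg_left _ (by linarith)
      rw [h4.tsum_eq_zero_add]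
      have := abs_nonneg (c (0 + n) * (1 / 2) ^ 0)
      linarith
    by_contra hne
    have hpos : 0 < |c n| := abs_pos.2 hne
    have h16 := h5 (min (1 / 2) (|c n| / (4 * (M + 1)))) (by positivity) (min_le_left _ _)
    have h17 : min (1 / 2) (|c n| / (4 * (M + 1))) ≤ |c n| / (4 * (M + 1)) := min_le_right _ _
    have h18 : 2 * min (1 / 2) (|c n| / (4 * (M + 1))) * M ≤ 2 * (|c n| / (4 * (M + 1))) * M := by gcongr
    have h19 : 2 * (|c n| / (4 * (M + 1))) * M ≤ |c n| / 2 := by
      have h20 : 2 * (|c n| / (4 * (M + 1))) * M = |c n| / 2 * (M / (M + 1)) := by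
        field_simp
        ring
      have h21 : M / (M + 1) ≤ 1 := by rw [div_le_one (by linarith)]; linarith
      rw [h20]
      nlinarith
    linarith

theorem delta_real (n : ℕ) : ((qExpansion 1 deltaForm).coeff n).im = 0 := by
  refine coeff_zero_of (c := fun n => ((qExpansion 1 deltaForm).coeff n).im) (fun r hr hr1 => ?_) n
  obtain ⟨y, hy⟩ : ∃ y : ℝ, y = -Real.log r / (2 * Real.pi) := ⟨_, rfl⟩
  have hpi := Real.pi_pos
  have hlog : Real.log r < 0 := Real.log_neg hr hr1
  have hy0 : 0 < y := by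
    rw [hy]
    have : 0 < -Real.log r := by linarith
    positivity
  have hyi : 0 < (Complex.I * (y : ℂ)).im := by simpa using hy0
  have h1 := Pool.Agent.W97.TW.hasSum_f deltaForm hyi
  have h2 := Complex.hasSum_im h1
  have h3 : (deltaForm (ofComplex (Complex.I * y))).im = 0 := by
    have h4 := Pool.Agent.H128R3.JD.DelK.Dl_eq hy0
    have h5 : deltaForm (ofComplex (Complex.I * y)) = ModularForm.discriminant (ofComplex (Complex.I * y)) := rfl
    rw [h5, ← h4, Complex.ofReal_im]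
  rw [h3] at h2
  refine h2.congr_fun fun m => ?_
  have h6 : cexp (2 * Real.pi * Complex.I * m * (Complex.I * y)) = ((r ^ m : ℝ) : ℂ) := by
    have h7 : (2 * Real.pi * Complex.I * m * (Complex.I * y) : ℂ) = ((m * Real.log r : ℝ) : ℂ) := by
      rw [hy]
      push_cast
      have : (Real.pi : ℂ) ≠ 0 := by exact_mod_cast hpi.ne'
      field_simp
      rw [Complex.I_sq]
      ring
    rw [h7, ← Complex.ofReal_exp, mul_comm, Real.exp_mul, Real.exp_log hr, Real.rpow_natCast]
  rw [h6, Complex.im_mul_ofReal]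
  rfl

/-- the recursion -/
theorem delta_rec (p : Nat.Primes) (m : ℕ) (_ : 0 < m) :
    (qExpansion 1 deltaForm).coeff (p * m) = (qExpansion 1 deltaForm).coeff p * (qExpansion 1 deltaForm).coeff m -
      ((p : ℕ) : ℂ) ^ (11 : ℤ) * (if (p : ℕ) ∣ m then (qExpansion 1 deltaForm).coeff (m / p) else 0) := by
  obtain ⟨a, ha⟩ := isNewform_delta.hecke p
  have h1 := Pool.Agent.W97.TW.hecke_rec deltaForm p.2.pos ha
  have hp1 : ¬ (p : ℕ) ∣ 1 := fun hd => p.2.one_lt.ne' (Nat.dvd_one.1 hd)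
  have e : ((12 : ℤ) - 1) = 11 := by norm_num
  have h2 := h1 1
  have h3 := h1 m
  unfold Pool.Agent.W97.TW.B Pool.Agent.W97.TW.A at h2 h3
  rw [if_neg hp1, if_neg hp1, mul_zero, zero_add, mul_one, isNewform_delta.coeff_one, mul_one] at h2
  rw [if_neg hp1, e] at h3
  rw [h2]
  linear_combination h3

theorem newf_delta : W388.IsNewf 1 12 deltaForm 1 where
  one := isNewform_delta.coeff_one
  real := delta_real
  mul m n h := Pool.Agent.W97.TW.l_mul_coprime
    (fun p => (qExpansion 1 deltaForm).coeff p) (fun p => ((p : ℕ) : ℂ) ^ (11 : ℤ))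
    (fun n => (qExpansion 1 deltaForm).coeff n) (Pool.Agent.W97.TW.A_zero deltaForm)
    isNewform_delta.coeff_one (fun p m hm => delta_rec p m hm) m n h
  pow p j hp := by
    have h1 := delta_rec ⟨p, hp⟩ (p ^ (j + 1)) (pow_pos hp.pos _)
    have hp1 : ¬ p ∣ 1 := fun hd => hp.one_lt.ne' (Nat.dvd_one.1 hd)
    have e1 : p * p ^ (j + 1) = p ^ (j + 2) := by ring
    have e2 : p ^ (j + 1) / p = p ^ j := by
      rw [pow_succ, Nat.mul_div_cancel _ hp.pos]
    have e3 : p ∣ p ^ (j + 1) := dvd_pow_self p (by omega)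
    simp only at h1
    rw [e1, if_pos e3, e2] at h1
    rw [if_neg hp1]
    have e4 : ((12 : ℤ) - 1) = 11 := by norm_num
    rw [e4]
    exact h1
  sign := Or.inl rfl
  fricke τ τ' h := by
    have hτ0 : (τ : ℂ) ≠ 0 := τ.ne_zero
    have h1 := Pool.Agent.W97.TW.f_gamma deltaForm (a := 0) (b := -1) (c := 1) (d := 0) (by norm_num)
      (by norm_num) τ.im_pos
    have e1 : (((0 : ℤ) : ℂ) * (τ : ℂ) + ((-1 : ℤ) : ℂ)) / (((1 : ℤ) : ℂ) * (τ : ℂ) + ((0 : ℤ) : ℂ)) = (τ' : ℂ) := by
      push_cast at h ⊢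
      rw [zero_mul, zero_add, one_mul, add_zero, div_eq_iff hτ0]
      linear_combination -h
    have e2 : (((1 : ℤ) : ℂ) * (τ : ℂ) + ((0 : ℤ) : ℂ)) = (τ : ℂ) := by push_cast; ring
    rw [e1, e2, ofComplex_apply, ofComplex_apply] at h1
    rw [h1]
    have e3 : (((Real.sqrt ((1 : ℕ) : ℝ) : ℝ) : ℂ) * (τ : ℂ) / Complex.I) ^ (12 : ℤ) = (τ : ℂ) ^ (12 : ℤ) := by
      rw [Nat.cast_one, Real.sqrt_one, Complex.ofReal_one, one_mul, div_zpow]
      have : Complex.I ^ (12 : ℤ) = 1 := by
        rw [show (12 : ℤ) = ((12 : ℕ) : ℤ) by norm_num, zpow_natCast, show (12 : ℕ) = 4 * 3 by norm_num, pow_mul,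
          Complex.I_pow_four, one_pow]
      rw [this, div_one]
    rw [e3]
    push_cast
    ring

theorem frm_delta : Frm 12 1 (psN 1) (lm (k := 12) deltaForm) :=
  frm_newf (N := 1) (k := 12) (by norm_num) newf_delta

end Pool.Agent.Y771.NF
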