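import Pool.Agent.Y771.NF.Lam
import Pool.Agent.Y771.NF.Cnt
import Pool.Agent.Y771.NF.Delta
import Pool.Agent.Y423.GL.TotD

/-!
# Derivatives of completed L-functions of newforms: the final theorem
-/

set_option autoImplicit false

namespace Pool.Agent.Y771.NF

open UpperHalfPlane hiding I
open MatrixGroups CongruenceSubgroup Filter Topology Complex MeasureTheory
open Pool.Agent.Y671.GL
open Pool.Agent.W97.TW (deltaForm isNewform_delta)
open scoped ComplexConjugate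

variable {N : ℕ} [NeZero N] {k : ℕ} {f : CuspForm (Gamma0 N : Subgroup (GL (Fin 2) ℝ)) (k : ℤ)} {ε : ℝ}

theorem derivs (hk : 1 ≤ k) (hf : W388.IsNewf N k f ε) (G : ℂ → ℂ) (hG : ∀ z, G z = Lam f ((k : ℂ) / 2 + I * z)) :
    (∀ (n : ℕ) (T : ℝ), (Cnt.ZerD G n T).Finite) ∧
    ∃ c C : ℝ, 0 < c ∧ 0 < C ∧
      (∀ (n : ℕ) (T : ℝ), (Cnt.num (iteratedDeriv n G) (Cnt.ExcD G n T) : ℝ) ≤
        C * Real.exp (-(c * n)) * Cnt.num (iteratedDeriv n G) (Cnt.ZerD G n T)) ∧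
      (∀ (n : ℕ) (T : ℝ), 2 ≤ T → (Cnt.num (iteratedDeriv n G) (Cnt.ExcD G n T) : ℝ) ≤
        C * Real.exp (-(c * n)) * T * Real.log T) := by
  obtain ⟨u, H, Z, hu, hGG, hst, hA, hL, -⟩ := all_of hk hf
  refine Cnt.main_d (X := Xf f u) (inv_ne_zero hu) (fun z => ?_) hGG.cg.cf.diff hA
    (ddx_all 1 H _ Z (by norm_num) (by norm_num) hGG hA hL) hL
    (Pool.Agent.Y423.GL.totd 1 H _ Z (by norm_num) hGG.cg hA)
  rw [hG, Xf, inv_mul_cancel_left₀ hu]

theorem Lam_delta (s : ℂ) :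
    Lam (N := 1) (k := 12) deltaForm s = mellin (fun y : ℝ => ((Pool.Agent.H128R3.JD.DelK.Dl y : ℝ) : ℂ)) s := by
  unfold Lam mellin
  refine setIntegral_congr_fun measurableSet_Ioi fun y (hy : 0 < y) => ?_
  simp only
  rw [Nat.cast_one, Real.sqrt_one, div_one, Pool.Agent.H128R3.JD.DelK.Dl_eq hy]
  rfl

end Pool.Agent.Y771.NF
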