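import Pool.Agent.Y24.GL.H5
import Pool.Agent.Y24.GL.H6
import Pool.Agent.Y24.GL.H7
import Pool.Agent.H370R2.DirGood
import Pool.Agent.Y771.NF.FinD

/-!
# Zeros of completed L-functions of newforms off the critical line
-/

set_option autoImplicit false

namespace Pool.Agent.Y771.NF

open UpperHalfPlane hiding I
open MatrixGroups CongruenceSubgroup Filter Topology Complex MeasureTheory
open Pool.Agent.Y671.GL
open scoped ComplexConjugate

/-- the order of a function symmetric with respect to the imaginary axis -/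
theorem ordNat_symm {X : ℂ → ℂ} (hX : Differentiable ℂ X) (hs : ∀ z : ℂ, X (-(conj z)) = conj (X z)) (z : ℂ) :
    analyticOrderNatAt X (-(conj z)) = analyticOrderNatAt X z := by
  obtain ⟨g, hg⟩ : ∃ g : ℂ → ℂ, g = fun s => X (s - 1 / 2) := ⟨_, rfl⟩
  have h2 : (starRingEnd ℂ) 2 = 2 := Complex.conj_ofNat 2
  have hgd : Differentiable ℂ g := by
    rw [hg]
    exact hX.comp (by fun_prop)
  have hgg : H370.DL.refl g = g := by
    funext s
    unfold H370.DL.refl
    rw [hg]
    show conj (X (1 - conj s - 1 / 2)) = X (s - 1 / 2)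
    rw [← hs]
    congr 1
    simp [h2]
    ring
  have htr : ∀ s : ℂ, analyticOrderAt g s = analyticOrderAt X (s - 1 / 2) := by
    intro s
    rw [hg]
    have ha : AnalyticAt ℂ (fun s : ℂ => s - 1 / 2) s := by fun_prop
    have hd : deriv (fun s : ℂ => s - 1 / 2) s ≠ 0 := by
      rw [deriv_sub_const]
      simp
    exact analyticOrderAt_comp_of_deriv_ne_zero (f := X) ha hd
  have h3 := H370.DL.order_refl (f := g) (s := z + 1 / 2) (hgd.analyticAt _)
  rw [hgg, htr, htr] at h3
  have e1 : z + 1 / 2 - 1 / 2 = z := by ring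
  have e2 : 1 - conj (z + 1 / 2) - 1 / 2 = -(conj z) := by
    simp [h2]
    ring
  rw [e1, e2] at h3
  unfold analyticOrderNatAt
  rw [h3]

/-- orders of the completed function and of the L-function -/
theorem ord_L {k : ℕ} (hk : 1 ≤ k) {c : ℝ} {u : ℂ} {X Z : ℂ → ℂ} (hD : LData k c u X Z) (hZ : Differentiable ℂ Z)
    {w : ℂ} (hw : 0 < w.im) : analyticOrderNatAt X w = analyticOrderNatAt Z (1 / 2 + w) := by
  have hk0 : (0 : ℝ) < (k : ℝ) / 2 := by
    have : (1 : ℝ) ≤ k := by exact_mod_cast hk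
    positivity
  have hopen : IsOpen {w : ℂ | 0 < w.im} := isOpen_lt continuous_const Complex.continuous_im
  have hev : X =ᶠ[𝓝 w] (fun w => u * Hg c ((k : ℝ) / 2) w) * (fun w => Z (1 / 2 + w)) := by
    filter_upwards [hopen.mem_nhds hw] with z hz
    exact hD.eq z (Or.inl hz)
  have hga : AnalyticAt ℂ (fun w => u * Hg c ((k : ℝ) / 2) w) w := by
    have hd : DifferentiableOn ℂ (fun w => u * Hg c ((k : ℝ) / 2) w) {w : ℂ | 0 < w.im} := fun z hz =>
      ((Hg_diff hD.c_pos hk0 (Or.inl (ne_of_gt hz))).const_mul u).differentiableWithinAt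
    exact hd.analyticOnNhd hopen w hw
  have hgne : u * Hg c ((k : ℝ) / 2) w ≠ 0 := by
    refine mul_ne_zero hD.u_ne (mul_ne_zero ?_ ?_)
    · rw [Ne, Complex.cpow_eq_zero_iff]
      intro h
      have := hD.c_pos.ne'
      exact this (by exact_mod_cast h.1)
    · apply Complex.Gamma_ne_zero
      intro m hm
      have := congrArg Complex.im hm
      simp at this
      linarith
  have hZa : AnalyticAt ℂ (fun w : ℂ => Z (1 / 2 + w)) w := by
    have h1 : Differentiable ℂ (fun w : ℂ => Z (1 / 2 + w)) := hZ.comp (by fun_prop)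
    exact h1.analyticAt w
  have hsub : AnalyticAt ℂ (fun w : ℂ => 1 / 2 + w) w := by fun_prop
  have hcomp : analyticOrderAt (fun w : ℂ => Z (1 / 2 + w)) w = analyticOrderAt Z (1 / 2 + w) :=
    analyticOrderAt_comp_of_deriv_ne_zero (f := Z) (g := fun w : ℂ => 1 / 2 + w) hsub (by
      rw [deriv_const_add]
      simp)
  unfold analyticOrderNatAt
  rw [analyticOrderAt_congr hev, analyticOrderAt_mul hga hZa, hga.analyticOrderAt_eq_zero.mpr hgne, zero_add, hcomp]

/-- comparison of sums of orders -/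
theorem half_sum {X Z : ℂ → ℂ} {σ T B : ℝ} {S : Finset ℂ} {φ : ℂ → ℂ} (hinj : Set.InjOn φ (S : Set ℂ))
    (hmem : ∀ w ∈ S, φ w ∈ Pool.Agent.Y24.GL.ZF Z σ T)
    (hord : ∀ w ∈ S, analyticOrderNatAt X w = analyticOrderNatAt Z (φ w))
    (h : (Pool.Agent.Y24.GL.ZF Z σ T).Finite ∧
      ∑ᶠ ρ ∈ Pool.Agent.Y24.GL.ZF Z σ T, (analyticOrderNatAt Z ρ : ℝ) ≤ B) :
    ∑ w ∈ S, (analyticOrderNatAt X w : ℝ) ≤ B := by
  classical
  rw [finsum_mem_eq_finite_toFinset_sum _ h.1] at h
  refine le_trans ?_ h.2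
  have h1 : ∑ w ∈ S, (analyticOrderNatAt X w : ℝ) = ∑ ρ ∈ S.image φ, (analyticOrderNatAt Z ρ : ℝ) := by
    rw [Finset.sum_image hinj]
    exact Finset.sum_congr rfl fun w hw => by rw [hord w hw]
  rw [h1]
  refine Finset.sum_le_sum_of_subset_of_nonneg ?_ fun _ _ _ => Nat.cast_nonneg _
  intro ρ hρ
  obtain ⟨w, hw, rfl⟩ := Finset.mem_image.1 hρ
  rw [Set.Finite.mem_toFinset]
  exact hmem w hw

/-- The zeros of `G` with real part in `(0, T]` and distance at least `d` from the real line. -/
def OffD (G : ℂ → ℂ) (d T : ℝ) : Set ℂ := {z | G z = 0 ∧ d ≤ |z.im| ∧ 0 < z.re ∧ z.re ≤ T}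

variable {N : ℕ} [NeZero N] {k : ℕ} {f : CuspForm (Gamma0 N : Subgroup (GL (Fin 2) ℝ)) (k : ℤ)} {ε : ℝ}

theorem off (hk : 1 ≤ k) (hf : W388.IsNewf N k f ε) (G : ℂ → ℂ) (hG : ∀ z, G z = Lam f ((k : ℂ) / 2 + I * z))
    {c : ℝ} (hc : c < 1) : ∃ C : ℝ, 0 < C ∧ ∀ d T : ℝ, 0 ≤ d → 2 ≤ T →
      (OffD G d T).Finite ∧ (Cnt.num G (OffD G d T) : ℝ) ≤ C * T ^ (1 - c * d) * Real.log T := by
  obtain ⟨u, hu, hue⟩ := exists_unit hf
  obtain ⟨Z, hFE, hL⟩ := exists_Z hk hf
  have hD := ldata hk hf hu hue hFE hL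
  have hF := frm_newf hk hf
  have hstrip := strip_of hF hL hD
  have hreal : ∀ n, conj (lm f n) = lm f n := conj_lm
  have hlfn := Pool.Agent.Y24.GL.lfn_of hk hFE hF hreal hL
  obtain ⟨C, hC, h⟩ := Pool.Agent.Y24.GL.density hlfn
    (fun κ h1 h2 => Pool.Agent.Y24.GL.mol hF hL (by linarith) h2.le) hc
  have hX := hD.diff
  have hGX : ∀ z, G z = u⁻¹ * Xf f u (I * z) := by
    intro z
    rw [hG, Xf, inv_mul_cancel_left₀ hu]
  have hfin : ∀ d T : ℝ, (OffD G d T).Finite := fun d T =>
    (Cnt.fin_rot (inv_ne_zero hu) hX hGX hstrip 0 T).subset fun z hz => ⟨hz.1, hz.2.2.1.le, hz.2.2.2⟩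
  refine ⟨2 * C, by positivity, fun d T hd hT => ⟨hfin d T, ?_⟩⟩
  have hlog : 0 ≤ Real.log T := Real.log_nonneg (by linarith)
  have hT0 : 0 ≤ T := by linarith
  have hpow : 0 ≤ T ^ (1 - c * d) := Real.rpow_nonneg hT0 _
  rcases le_or_gt d (1 / 2) with hd2 | hd2
  · have hB := h (1 / 2 + d) T (by linarith) (by linarith) hT
    rw [add_sub_cancel_left] at hB
    refine Cnt.num_le (inv_ne_zero hu) hX hGX (hfin d T)
      (P := fun w => Xf f u w = 0 ∧ d ≤ |w.re| ∧ 0 < w.im ∧ w.im ≤ T) ?_ ?_
    · rintro z ⟨h1, h2, h3, h4⟩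
      rw [hGX z] at h1
      refine ⟨(mul_eq_zero.1 h1).resolve_left (inv_ne_zero hu), ?_, ?_, ?_⟩
      · rw [Cnt.rot_re, abs_neg]
        exact h2
      · rw [Cnt.rot_im]
        exact h3
      · rw [Cnt.rot_im]
        exact h4
    · intro S hS
      rw [← Finset.sum_filter_add_sum_filter_not S (fun w => d ≤ w.re)]
      have hZ0 : ∀ w : ℂ, 0 < w.im → Xf f u w = 0 → Z (1 / 2 + w) = 0 := by
        intro w hw h0
        rw [hD.eq w (Or.inl hw)] at h0
        refine (mul_eq_zero.1 h0).resolve_left ?_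
        refine mul_ne_zero hD.u_ne (mul_ne_zero ?_ ?_)
        · rw [Ne, Complex.cpow_eq_zero_iff]
          intro h
          have := hD.c_pos.ne'
          exact this (by exact_mod_cast h.1)
        · apply Complex.Gamma_ne_zero
          intro m hm
          have := congrArg Complex.im hm
          simp at this
          linarith
      have hp : ∑ w ∈ S.filter (fun w => d ≤ w.re), (analyticOrderNatAt (Xf f u) w : ℝ) ≤
          C * T ^ (1 - c * d) * Real.log T := by
        refine half_sum (φ := fun w => 1 / 2 + w) (fun a _ b _ hab => add_left_cancel hab) ?_ ?_ hB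
        · intro w hw
          obtain ⟨h1, h2⟩ := Finset.mem_filter.1 hw
          obtain ⟨h3, h4, h5, h6⟩ := hS w h1
          refine ⟨hZ0 w h5 h3, ?_, ?_, ?_⟩
          · simp
            linarith
          · simp
            exact h5
          · simp
            exact h6
        · intro w hw
          obtain ⟨h1, h2⟩ := Finset.mem_filter.1 hw
          obtain ⟨h3, h4, h5, h6⟩ := hS w h1
          exact ord_L hk hD hL.diff h5
      have hm : ∑ w ∈ S.filter (fun w => ¬ d ≤ w.re), (analyticOrderNatAt (Xf f u) w : ℝ) ≤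
          C * T ^ (1 - c * d) * Real.log T := by
        refine half_sum (φ := fun w => 1 / 2 + -(conj w)) (fun a _ b _ hab => ?_) ?_ ?_ hB
        · have h1 : -(conj a) = -(conj b) := add_left_cancel hab
          exact (starRingEnd ℂ).injective (neg_injective h1)
        · intro w hw
          obtain ⟨h1, h2⟩ := Finset.mem_filter.1 hw
          obtain ⟨h3, h4, h5, h6⟩ := hS w h1
          have h7 : Xf f u (-(conj w)) = 0 := by
            rw [hD.symm, h3, map_zero]
          have him : (-(conj w)).im = w.im := by simp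
          have hre : (-(conj w)).re = -w.re := by simp
          refine ⟨hZ0 _ (by rw [him]; exact h5) h7, ?_, ?_, ?_⟩
          · have h8 : d ≤ -w.re := by
              rcases le_abs.1 h4 with h9 | h9
              · exact absurd h9 h2
              · exact h9
            simp
            linarith
          · simp
            exact h5
          · simp
            exact h6
        · intro w hw
          obtain ⟨h1, h2⟩ := Finset.mem_filter.1 hw
          obtain ⟨h3, h4, h5, h6⟩ := hS w h1
          have him : (-(conj w)).im = w.im := by simp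
          rw [← ordNat_symm hX hD.symm w]
          exact ord_L hk hD hL.diff (by rw [him]; exact h5)
      calc _ ≤ C * T ^ (1 - c * d) * Real.log T + C * T ^ (1 - c * d) * Real.log T := add_le_add hp hm
        _ = _ := by ring
  · have hemp : OffD G d T = ∅ := by
      rw [Set.eq_empty_iff_forall_notMem]
      rintro z ⟨h1, h2, -, -⟩
      rw [hGX z] at h1
      have h3 := hstrip _ ((mul_eq_zero.1 h1).resolve_left (inv_ne_zero hu))
      rw [Cnt.rot_re, abs_neg] at h3
      linarith
    rw [hemp, Cnt.num_empty]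
    positivity

end Pool.Agent.Y771.NF
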