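import Pool.Agent.Y809.GL.JUT

set_option autoImplicit false

/-!
# The Fejer kernel (after helper809, module Pool.Agent.Y809.GL.SC)
-/

namespace Pool.Agent.Y771.NF

open Complex Filter Topology MeasureTheory Set
open scoped ComplexConjugate
open Pool.Agent.Y671.GL
open Pool.Agent.Y809.GL (ee norm_ee fej_periodic fej_eq integral_ee continuous_ee)

/-! ### The Fejer kernel -/

theorem fej_nonneg (H : ℕ) (x : ℝ) : 0 ≤ fej H x := by
  unfold fej; positivity

theorem fej_integral (H : ℕ) (hH : 1 ≤ H) : ∫ β in (-(1 / 2) : ℝ)..(1 / 2), fej H β = 1 := by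
  have h1 := (fej_periodic H).intervalIntegral_add_eq (-(1 / 2)) 0
  rw [show (-(1 / 2) : ℝ) + 1 = 1 / 2 by norm_num, zero_add] at h1
  rw [h1]
  have h2 : ((∫ x in (0 : ℝ)..1, fej H x : ℝ) : ℂ) = 1 := by
    rw [← intervalIntegral.integral_ofReal]
    simp_rw [fej_eq]
    rw [intervalIntegral.integral_const_mul, intervalIntegral.integral_finsetSum]
    · simp_rw [integral_ee]
      have h3 : ∑ p ∈ Finset.range H ×ˢ Finset.range H, (if ((p.1 : ℤ) - (p.2 : ℤ)) = 0 then (1 : ℂ) else 0) = H := by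
        rw [Finset.sum_product]
        have : ∀ i ∈ Finset.range H, ∑ j ∈ Finset.range H, (if ((i : ℤ) - (j : ℤ)) = 0 then (1 : ℂ) else 0) = 1 := by
          intro i hi
          have : ∀ j : ℕ, (if ((i : ℤ) - (j : ℤ)) = 0 then (1 : ℂ) else 0) = if i = j then 1 else 0 := by
            intro j
            congr 1
            rw [eq_iff_iff]
            omega
          simp_rw [this]
          rw [Finset.sum_ite_eq, if_pos hi]
        rw [Finset.sum_congr rfl this, Finset.sum_const, Finset.card_range, nsmul_eq_mul, mul_one]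
      rw [h3]
      have : (H : ℂ) ≠ 0 := by
        have : (H : ℕ) ≠ 0 := by omega
        exact_mod_cast this
      field_simp
    · intro p _
      apply Continuous.intervalIntegrable
      exact continuous_ee.comp (by fun_prop)
  exact_mod_cast h2

theorem fej_le (H : ℕ) (hH : 1 ≤ H) (β : ℝ) (hβ : |β| ≤ 1 / 2) (hβ0 : β ≠ 0) : fej H β ≤ 1 / (4 * H * β ^ 2) := by
  have hH0 : (0 : ℝ) < H := by exact_mod_cast hH
  have hb : 0 < |β| := abs_pos.mpr hβ0
  have h1 : ∀ j : ℕ, cexp (2 * Real.pi * I * j * β) = (ee β) ^ j := by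
    intro j; unfold ee; rw [← Complex.exp_nat_mul]; congr 1; ring
  have h2 : 4 * |β| ≤ ‖ee β - 1‖ := by
    have h3 : ee β = cexp (I * ((2 * Real.pi * β : ℝ) : ℂ)) := by unfold ee; congr 1; push_cast; ring
    rw [h3, Complex.norm_exp_I_mul_ofReal_sub_one]
    rw [show 2 * Real.pi * β / 2 = Real.pi * β by ring, norm_mul, Real.norm_eq_abs, Real.norm_eq_abs, abs_two]
    have h4 : |Real.sin (Real.pi * β)| = Real.sin (Real.pi * |β|) := by
      rcases le_or_gt 0 β with h | h
      · rw [abs_of_nonneg h, abs_of_nonneg]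
        apply Real.sin_nonneg_of_nonneg_of_le_pi
        · positivity
        · rw [abs_of_nonneg h] at hβ; nlinarith [Real.pi_pos]
      · rw [abs_of_neg h, show Real.pi * -β = -(Real.pi * β) by ring, Real.sin_neg, abs_of_nonpos]
        have : 0 ≤ Real.sin (Real.pi * (-β)) := by
          apply Real.sin_nonneg_of_nonneg_of_le_pi
          · have := Real.pi_pos; nlinarith
          · rw [abs_of_neg h] at hβ; nlinarith [Real.pi_pos]
        rw [show Real.pi * -β = -(Real.pi * β) by ring, Real.sin_neg] at this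
        linarith
    rw [h4]
    have h5 := Real.mul_le_sin (x := Real.pi * |β|) (by positivity) (by nlinarith [Real.pi_pos])
    have h6 : 2 / Real.pi * (Real.pi * |β|) = 2 * |β| := by
      field_simp
    rw [h6] at h5
    linarith
  have h3 : ee β ≠ 1 := by
    intro h
    rw [h] at h2
    simp only [sub_self, norm_zero] at h2
    linarith
  unfold fej
  simp_rw [h1]
  rw [geom_sum_eq h3, norm_div]
  have h4 : ‖ee β ^ H - 1‖ ≤ 2 := by
    refine (norm_sub_le _ _).trans ?_
    rw [norm_pow, norm_ee, one_pow, norm_one]; norm_num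
  have h5 : ‖ee β ^ H - 1‖ / ‖ee β - 1‖ ≤ 1 / (2 * |β|) := by
    rw [div_le_div_iff₀ (by linarith) (by positivity)]
    nlinarith [norm_nonneg (ee β ^ H - 1)]
  have h6 : (‖ee β ^ H - 1‖ / ‖ee β - 1‖) ^ 2 ≤ (1 / (2 * |β|)) ^ 2 :=
    pow_le_pow_left₀ (by positivity) h5 2
  have h7 : (1 / (2 * |β|)) ^ 2 = 1 / (4 * β ^ 2) := by
    rw [div_pow, mul_pow, sq_abs]; norm_num
  rw [h7] at h6
  rw [div_le_iff₀ hH0]
  refine h6.trans (le_of_eq ?_)
  have : β ^ 2 ≠ 0 := by positivity
  field_simp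

theorem integral_inv (η : ℝ) (hη : 0 < η) : ∫ β in (-(1 / 2) : ℝ)..(1 / 2), 1 / (β ^ 2 + η ^ 2) ≤ Real.pi / η := by
  have h1 : ∀ β : ℝ, 1 / (β ^ 2 + η ^ 2) = (1 / η ^ 2) * (1 / (1 + (β / η) ^ 2)) := by
    intro β
    have : β ^ 2 + η ^ 2 ≠ 0 := by positivity
    field_simp
    ring
  simp_rw [h1]
  rw [intervalIntegral.integral_const_mul]
  have h2 := intervalIntegral.integral_comp_div (a := (-(1/2) : ℝ)) (b := 1/2) (fun u : ℝ => 1 / (1 + u ^ 2)) hη.ne'
  rw [h2, smul_eq_mul, integral_one_div_one_add_sq]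
  have h3 := Real.arctan_lt_pi_div_two (1 / 2 / η)
  have h4 := Real.neg_pi_div_two_lt_arctan (-(1 / 2) / η)
  have h5 : Real.arctan (1 / 2 / η) - Real.arctan (-(1 / 2) / η) ≤ Real.pi := by linarith
  calc 1 / η ^ 2 * (η * (Real.arctan (1 / 2 / η) - Real.arctan (-(1 / 2) / η))) ≤ 1 / η ^ 2 * (η * Real.pi) := by
        gcongr
    _ = Real.pi / η := by field_simp


end Pool.Agent.Y771.NF
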