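import Pool.Agent.Y771.NF.FinD
import Pool.Agent.Y67.GL.TOTH

/-!
# The heat flow of completed L-functions of newforms: the final theorem
-/

set_option autoImplicit false

namespace Pool.Agent.Y771.NF

open UpperHalfPlane hiding I
open MatrixGroups CongruenceSubgroup Filter Topology Complex MeasureTheory
open Pool.Agent.Y671.GL
open Pool.Agent.W97.TW (deltaForm isNewform_delta)
open Pool.Agent.W169.HF (heat)
open scoped ComplexConjugate

variable {N : ℕ} [NeZero N] {k : ℕ} {f : CuspForm (Gamma0 N : Subgroup (GL (Fin 2) ℝ)) (k : ℤ)} {ε : ℝ}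

lemma heat_Xf (u : ℂ) (τ : ℝ) (w : ℂ) : heat τ (Xf f u) w = u * heat τ (Lam f) ((k : ℂ) / 2 + w) := by
  have h := integral_const_mul (μ := volume) u (fun v : ℝ => ((Real.exp (-v ^ 2) : ℝ) : ℂ) *
    Lam f ((k : ℂ) / 2 + w + ((2 * Real.sqrt τ * v : ℝ) : ℂ)))
  unfold heat Xf
  rw [mul_left_comm, ← h]
  congr 1
  refine integral_congr_ae (Eventually.of_forall fun v => ?_)
  simp only
  rw [← add_assoc]
  ring

theorem flow (hk : 1 ≤ k) (hf : W388.IsNewf N k f ε) (G : ℝ → ℂ → ℂ)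
    (hG : ∀ (τ : ℝ) (z : ℂ), G τ z = heat τ (Lam f) ((k : ℂ) / 2 + I * z)) :
    (∀ t T : ℝ, 0 ≤ t → (Cnt.ZerH (G t) T).Finite) ∧
    ∃ c C : ℝ, 0 < c ∧ 0 < C ∧ ∀ t T : ℝ, 0 < t → t ≤ 1 / 8 → 2 ≤ T →
      (Cnt.num (G t) (Cnt.ExcH (G t) T) : ℝ) ≤
        C * Real.exp (-(c * t * Real.log T ^ 2)) * Cnt.num (G t) (Cnt.ZerH (G t) T) ∧
      (Cnt.num (G t) (Cnt.ExcH (G t) T) : ℝ) ≤ C * Real.exp (-(c * t * Real.log T ^ 2)) * T * Real.log T := by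
  obtain ⟨u, H, Z, hu, hGG, hst, hA, hL, hH⟩ := all_of hk hf
  obtain ⟨K0, hK0, hslow⟩ := hGG.cg.slow
  have hne : ∃ z, Xf f u z ≠ 0 := by
    refine ⟨1, fun h0 => ?_⟩
    have := hst 1 h0
    norm_num at this
  obtain ⟨-, g1, -, g2, -⟩ := Pool.Agent.Y275.GL.hht (Xf f u) (slow_of hGG.cg.cf.diff hK0 hslow) hGG.cg.cf.symm
    hne hst
  refine Cnt.main_h (X := Xf f u) (inv_ne_zero hu) (fun τ _ z => ?_) g1 g2
    (hdx_all 1 H _ Z (by norm_num) (by norm_num) hGG hst hH) hH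
    (Pool.Agent.Y67.GL.toth 1 H _ Z (by norm_num) hGG.cg hst)
  rw [hG, heat_Xf, inv_mul_cancel_left₀ hu]

end Pool.Agent.Y771.NF
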