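import Pool.Agent.Y671.GL.NF
import Pool.Agent.Y275.GL.Had1
import Pool.Agent.H128R3.GJC
import Pool.Agent.TH839.UH.Fin
import Pool.Agent.W97.TW.Lfun

set_option autoImplicit false

/-!
# Completed L-functions of newforms of trivial character: the hypotheses of the theorems on derivatives
# and on the heat flow
-/

namespace Pool.Agent.Y771.NF

open UpperHalfPlane hiding I
open MatrixGroups CongruenceSubgroup Filter Topology Complex MeasureTheory Set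
open Pool.Agent.Y671.GL
open Pool.Agent.H471R3.GJ (Hk IsHk SDir SMel SPhi0 Phi0 sH kp)
open scoped ComplexConjugate

variable {N : ℕ} [NeZero N] {k : ℕ} {f : CuspForm (Gamma0 N : Subgroup (GL (Fin 2) ℝ)) (k : ℤ)} {ε : ℝ}

/-- The data of a Hecke series attached to a newform. -/
noncomputable def nhk (f : CuspForm (Gamma0 N : Subgroup (GL (Fin 2) ℝ)) (k : ℤ)) (B ε : ℝ) : Hk where
  φ y := (f (ofComplex (Complex.I * ((y / Real.sqrt N : ℝ) : ℂ)))).re
  b m := ((qExpansion 1 f).coeff m).re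
  k := k
  h := Real.sqrt N
  p := 1
  β := k / 2
  B := B
  ε := ε

/-- The completed L-function `Λ(s) = ∫ f (i y / √N) y^(s-1) dy`. -/
noncomputable def Lam (f : CuspForm (Gamma0 N : Subgroup (GL (Fin 2) ℝ)) (k : ℤ)) (s : ℂ) : ℂ :=
  mellin (fun y : ℝ => f (ofComplex (Complex.I * ((y / Real.sqrt N : ℝ) : ℂ)))) s

lemma sqrtN_pos : 0 < Real.sqrt N := by
  have : (0 : ℝ) < N := by exact_mod_cast Nat.pos_of_ne_zero (NeZero.ne N)
  exact Real.sqrt_pos.2 this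

/-- the q-expansion on the imaginary axis -/
lemma sum_iy (f : CuspForm (Gamma0 N : Subgroup (GL (Fin 2) ℝ)) (k : ℤ)) {y : ℝ} (hy : 0 < y) :
    HasSum (fun m : ℕ => (qExpansion 1 f).coeff m *
      ((Real.exp (-(2 * Real.pi * (m : ℝ) * y / Real.sqrt N)) : ℝ) : ℂ))
      (f (ofComplex (Complex.I * ((y / Real.sqrt N : ℝ) : ℂ)))) := by
  have hy1 : 0 < y / Real.sqrt N := div_pos hy sqrtN_pos
  have him : 0 < (Complex.I * ((y / Real.sqrt N : ℝ) : ℂ)).im := by simpa using hy1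
  have h := Pool.Agent.W97.TW.hasSum_f f him
  refine h.congr_fun fun m => ?_
  show _ = (qExpansion 1 f).coeff m * _
  congr 1
  rw [Complex.ofReal_exp]
  congr 1
  have hI : Complex.I ^ 2 = -1 := Complex.I_sq
  push_cast
  linear_combination (-(2 * Real.pi * m * (y / ((Real.sqrt N : ℝ) : ℂ))) : ℂ) * hI

lemma real_iy (hf : W388.IsNewf N k f ε) {y : ℝ} (hy : 0 < y) :
    (((f (ofComplex (Complex.I * ((y / Real.sqrt N : ℝ) : ℂ)))).re : ℝ) : ℂ) =
      f (ofComplex (Complex.I * ((y / Real.sqrt N : ℝ) : ℂ))) := by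
  apply Complex.ext
  · simp
  · rw [Complex.ofReal_im]
    have h1 := Complex.hasSum_im (sum_iy f hy)
    have h2 : (fun m : ℕ => ((qExpansion 1 f).coeff m *
      ((Real.exp (-(2 * Real.pi * (m : ℝ) * y / Real.sqrt N)) : ℝ) : ℂ)).im) = fun _ => 0 := by
      funext m
      rw [Complex.im_mul_ofReal, hf.real m, zero_mul]
    rw [h2] at h1
    exact (h1.unique hasSum_zero).symm

theorem isHk_of (hk : 1 ≤ k) (hf : W388.IsNewf N k f ε) : ∃ B : ℝ, IsHk (nhk f B ε) := by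
  have hk' : (1 : ℤ) ≤ (k : ℤ) := by exact_mod_cast hk
  have hk0 : (0 : ℝ) < k := by exact_mod_cast (lt_of_lt_of_le one_pos hk : 0 < k)
  obtain ⟨C, hC⟩ := W388.coeff_bound f hk'
  refine ⟨max C 1, hk0, sqrtN_pos, le_refl 1, ?_, le_max_right _ _, ?_, ?_, ?_, hf.sign, ?_⟩
  · show (0 : ℝ) ≤ (k : ℝ) / 2
    positivity
  · have h1 := congrArg Complex.re hf.one
    exact h1.trans Complex.one_re
  · intro m hm
    have hm0 : (0 : ℝ) ≤ (m : ℝ) ^ ((k : ℝ) / 2) := by positivity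
    refine (Complex.abs_re_le_norm _).trans ((hC m hm).trans ?_)
    show C * (m : ℝ) ^ ((((k : ℤ) : ℝ)) / 2) ≤ max C 1 * (m : ℝ) ^ ((k : ℝ) / 2)
    rw [Int.cast_natCast]
    exact mul_le_mul_of_nonneg_right (le_max_left _ _) hm0
  · intro y hy
    have h := Complex.hasSum_re (sum_iy f hy)
    have h2 := (hasSum_nat_add_iff' 1).2 h
    simp only [Finset.range_one, Finset.sum_singleton, W388.coeff_zero f, zero_mul, Complex.zero_re,
      sub_zero] at h2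
    refine h2.congr_fun ?_
    intro m
    rw [Complex.re_mul_ofReal]
    show ((qExpansion 1 f).coeff (m + 1)).re *
      Real.exp (-(2 * Real.pi * ((m + 1 : ℕ) : ℝ) ^ 1 * y / Real.sqrt N)) = _
    rw [pow_one]
  · intro y hy
    have hs := sqrtN_pos (N := N)
    have hy1 : 0 < y / Real.sqrt N := div_pos hy hs
    have hy2 : 0 < (1 / y) / Real.sqrt N := by positivity
    have him1 : 0 < (Complex.I * ((y / Real.sqrt N : ℝ) : ℂ)).im := by simpa using hy1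
    have him2 : 0 < (Complex.I * (((1 / y) / Real.sqrt N : ℝ) : ℂ)).im := by simpa using hy2
    have hss : Real.sqrt N * Real.sqrt N = N := Real.mul_self_sqrt (Nat.cast_nonneg N)
    have h1 := hf.fricke (ofComplex (Complex.I * ((y / Real.sqrt N : ℝ) : ℂ)))
      (ofComplex (Complex.I * (((1 / y) / Real.sqrt N : ℝ) : ℂ))) (by
        rw [ofComplex_apply_of_im_pos him1, ofComplex_apply_of_im_pos him2]
        show Complex.I * (((1 / y) / Real.sqrt N : ℝ) : ℂ) * ((N : ℂ) *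
          (Complex.I * ((y / Real.sqrt N : ℝ) : ℂ))) = -1
        have e1 : (((1 / y) / Real.sqrt N : ℝ) : ℂ) * ((N : ℂ) * ((y / Real.sqrt N : ℝ) : ℂ)) = 1 := by
          have e2 : ((1 / y) / Real.sqrt N) * ((N : ℝ) * (y / Real.sqrt N)) = 1 := by
            have e3 : ((1 / y) / Real.sqrt N) * ((N : ℝ) * (y / Real.sqrt N)) =
                ((N : ℝ) / (Real.sqrt N * Real.sqrt N)) * (y / y) := by ring
            have hN0 : (N : ℝ) ≠ 0 := by
              rw [← hss]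
              exact (mul_pos hs hs).ne'
            rw [e3, hss, div_self hN0, div_self hy.ne', one_mul]
          exact_mod_cast e2
        have hI := Complex.I_mul_I
        linear_combination Complex.I * Complex.I * e1 + hI)
    have h2 : (((Real.sqrt N : ℝ) : ℂ) * ((ofComplex (Complex.I * ((y / Real.sqrt N : ℝ) : ℂ)) : ℍ) : ℂ) /
        Complex.I) = (y : ℂ) := by
      rw [ofComplex_apply_of_im_pos him1]
      show ((Real.sqrt N : ℝ) : ℂ) * (Complex.I * ((y / Real.sqrt N : ℝ) : ℂ)) / Complex.I = (y : ℂ)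
      have hI := Complex.I_ne_zero
      have hsc : ((Real.sqrt N : ℝ) : ℂ) ≠ 0 := by exact_mod_cast hs.ne'
      push_cast
      field_simp
    rw [h2, ← real_iy hf hy] at h1
    have h3 := congrArg Complex.re h1
    show (f (ofComplex (Complex.I * (((1 / y) / Real.sqrt N : ℝ) : ℂ)))).re =
      ε * y ^ (k : ℝ) * (f (ofComplex (Complex.I * ((y / Real.sqrt N : ℝ) : ℂ)))).re
    rw [h3]
    have h4 : (ε : ℂ) * (y : ℂ) ^ (k : ℤ) * (((f (ofComplex (Complex.I * ((y / Real.sqrt N : ℝ) : ℂ)))).re : ℝ) : ℂ) =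
        ((ε * y ^ (k : ℝ) * (f (ofComplex (Complex.I * ((y / Real.sqrt N : ℝ) : ℂ)))).re : ℝ) : ℂ) := by
      rw [Real.rpow_natCast]
      push_cast
      rw [zpow_natCast]
    rw [h4, Complex.ofReal_re]

lemma Lam_eq (hf : W388.IsNewf N k f ε) (B : ℝ) :
    Lam f = mellin (fun y : ℝ => (((nhk f B ε).φ y : ℝ) : ℂ)) := by
  funext s
  unfold Lam mellin
  refine setIntegral_congr_fun measurableSet_Ioi fun y hy => ?_
  have h1 := real_iy hf (show (0 : ℝ) < y from hy)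
  simp only
  rw [← h1]
  rfl

lemma Lam_diff (hk : 1 ≤ k) (hf : W388.IsNewf N k f ε) : Differentiable ℂ (Lam f) := by
  obtain ⟨B, hB⟩ := isHk_of hk hf
  rw [Lam_eq hf B]
  exact Pool.Agent.H128R3.GJB.mellin_diff hB

open Classical in
lemma Lam_fe (hk : 1 ≤ k) (hf : W388.IsNewf N k f ε) (s : ℂ) : Lam f (k - s) = (ε : ℂ) * Lam f s := by
  obtain ⟨B, hB⟩ := isHk_of hk hf
  have h1 := Pool.Agent.H128R3.GJB.mellin_fe hB s
  rw [← Lam_eq hf B] at h1
  have h2 : ((nhk f B ε).k : ℂ) = (k : ℂ) := by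
    show (((k : ℝ)) : ℂ) = (k : ℂ)
    norm_cast
  rw [h2] at h1
  rw [h1]
  congr 1
  have h3 : (nhk f B ε).ε = ε := rfl
  unfold Pool.Agent.H128R3.GJB.pr
  rw [h3]
  rcases hf.sign with h | h
  · rw [if_pos h, h]
    simp
  · rw [if_neg (by rw [h]; norm_num), h]
    simp

lemma Lam_conj (hf : W388.IsNewf N k f ε) (s : ℂ) : Lam f (conj s) = conj (Lam f s) := by
  rw [Lam_eq hf 0]
  have h1 := Pool.Agent.W108.TW.mellin_conj (fun y : ℝ => (((nhk f 0 ε).φ y : ℝ) : ℂ)) s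
  have h2 : (fun y : ℝ => (starRingEnd ℂ) (((nhk f 0 ε).φ y : ℝ) : ℂ)) =
      fun y : ℝ => (((nhk f 0 ε).φ y : ℝ) : ℂ) := by
    funext y
    rw [Complex.conj_ofReal]
  rw [h2] at h1
  rw [← h1]

lemma Lam_ser (hk : 1 ≤ k) (hf : W388.IsNewf N k f ε) (s : ℂ) (hs : (k : ℝ) / 2 + 1 < s.re) :
    Lam f s = ((Real.sqrt N / (2 * Real.pi) : ℝ) : ℂ) ^ s * Complex.Gamma s *
        ∑' n : ℕ, (qExpansion 1 f).coeff (n + 1) * ((n + 1 : ℕ) : ℂ) ^ (-s) := by
  obtain ⟨B, hB⟩ := isHk_of hk hf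
  have hk0 : (0 : ℝ) < k := by exact_mod_cast (lt_of_lt_of_le one_pos hk : 0 < k)
  have h1 := Pool.Agent.H471R3.GJ.dir (nhk f B ε) hB s (by linarith) (by
    show (k : ℝ) / 2 + 1 < ((1 : ℕ) : ℝ) * s.re
    rw [Nat.cast_one, one_mul]
    exact hs)
  rw [← Lam_eq hf B] at h1
  rw [h1]
  show ((Real.sqrt N / (2 * Real.pi) : ℝ) : ℂ) ^ s * Complex.Gamma s *
    ∑' m : ℕ, ((((qExpansion 1 f).coeff (m + 1)).re : ℝ) : ℂ) * ((m + 1 : ℕ) : ℂ) ^ (-((1 : ℕ) : ℂ) * s) = _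
  congr 1
  refine tsum_congr fun n => ?_
  rw [← W388.coeff_real hf (n + 1)]
  congr 2
  push_cast
  ring

lemma Lam_vert (hk : 1 ≤ k) (hf : W388.IsNewf N k f ε) (a b : ℝ) :
    ∃ M : ℝ, ∀ s : ℂ, a ≤ s.re → s.re ≤ b → ‖Lam f s‖ ≤ M := by
  obtain ⟨B, hB⟩ := isHk_of hk hf
  obtain ⟨-, hP, hM, -⟩ := Pool.Agent.H128R3.GJA.isHk_isL (nhk f B ε) hB
  obtain ⟨H, hH⟩ : ∃ H, H = nhk f B ε := ⟨_, rfl⟩
  have hLam := Lam_eq hf B
  rw [← hH] at hP hM hB hLam
  obtain ⟨hc, -, -, C, c1, c2, hc1, hc2, hd⟩ := hP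
  have hkp := Pool.Agent.H128R3.GJB.kp_pos hB
  have hkc := Pool.Agent.H128R3.GJB.kp_ne hB
  have hint : ∀ x : ℝ, Integrable (fun t : ℝ => |Phi0 H t| * Real.exp (x * t)) := by
    intro x
    have h1 := (Pool.Agent.H471R3.GJ.HOdd.dom hc hc1 hc2 hd (x : ℂ)).norm
    refine h1.congr (Eventually.of_forall fun t => ?_)
    simp only
    rw [norm_mul, Complex.norm_real, Real.norm_eq_abs, Complex.norm_exp]
    congr 2
    rw [← Complex.ofReal_mul, Complex.ofReal_re]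
  obtain ⟨A1, hA1⟩ : ∃ A1 : ℝ, A1 = (a - H.k / 2) / kp H := ⟨_, rfl⟩
  obtain ⟨B1, hB1⟩ : ∃ B1 : ℝ, B1 = (b - H.k / 2) / kp H := ⟨_, rfl⟩
  refine ⟨(∫ t : ℝ, |Phi0 H t| * Real.exp (A1 * t)) + ∫ t : ℝ, |Phi0 H t| * Real.exp (B1 * t), ?_⟩
  intro s h1 h2
  obtain ⟨z, hz⟩ : ∃ z : ℂ, z = (s - ((H.k / 2 : ℝ) : ℂ)) / (kp H : ℂ) := ⟨_, rfl⟩
  have hsz : s = sH H z := by
    unfold sH
    rw [hz]
    field_simp
    ring
  have hzre : z.re = (s.re - H.k / 2) / kp H := by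
    rw [hz, Complex.div_ofReal_re, Complex.sub_re, Complex.ofReal_re]
  have hz1 : A1 ≤ z.re := by
    rw [hzre, hA1]
    gcongr
  have hz2 : z.re ≤ B1 := by
    rw [hzre, hB1]
    gcongr
  have h3 := hM z
  rw [← hLam, ← hsz] at h3
  rw [h3, ← integral_add (hint A1) (hint B1)]
  refine norm_integral_le_of_norm_le ((hint A1).add (hint B1)) (Eventually.of_forall fun t => ?_)
  rw [norm_mul, Complex.norm_real, Real.norm_eq_abs, Complex.norm_exp]
  have h4 : (z * t).re = z.re * t := by simp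
  rw [h4]
  show |Phi0 H t| * Real.exp (z.re * t) ≤ |Phi0 H t| * Real.exp (A1 * t) + |Phi0 H t| * Real.exp (B1 * t)
  have h5 : Real.exp (z.re * t) ≤ Real.exp (A1 * t) + Real.exp (B1 * t) := by
    rcases le_total 0 t with ht | ht
    · have : Real.exp (z.re * t) ≤ Real.exp (B1 * t) := Real.exp_le_exp.2 (by nlinarith)
      have := Real.exp_pos (A1 * t)
      linarith
    · have : Real.exp (z.re * t) ≤ Real.exp (A1 * t) := Real.exp_le_exp.2 (by nlinarith)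
      have := Real.exp_pos (B1 * t)
      linarith
  rw [← mul_add]
  exact mul_le_mul_of_nonneg_left h5 (abs_nonneg _)

/-- The centred completed function, normalised by a unit so that it is symmetric. -/
noncomputable def Xf (f : CuspForm (Gamma0 N : Subgroup (GL (Fin 2) ℝ)) (k : ℤ)) (u : ℂ) (z : ℂ) : ℂ :=
  u * Lam f ((k : ℂ) / 2 + z)

/-- the unit -/
lemma exists_unit (hf : W388.IsNewf N k f ε) : ∃ u : ℂ, u ≠ 0 ∧ u * ε = conj u := by
  rcases hf.sign with h | h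
  · exact ⟨1, one_ne_zero, by rw [h]; simp⟩
  · exact ⟨I, I_ne_zero, by rw [h]; simp⟩

theorem ldata (hk : 1 ≤ k) (hf : W388.IsNewf N k f ε) {u : ℂ} (hu : u ≠ 0) (hue : u * ε = conj u)
    {Z : ℂ → ℂ} (hFE : W388.FE2 k N 1 Z) (hL : IsL (lm f) Z) :
    LData k (Real.sqrt N / (2 * Real.pi)) (u * ((Real.sqrt N / (2 * Real.pi) : ℝ) : ℂ) ^ ((k : ℂ) / 2))
      (Xf f u) Z :=
  ldata_of hk hf hFE hL (Lam_diff hk hf) (σ := (k : ℝ) / 2 + 1) (Lam_ser hk hf) (Lam_fe hk hf)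
    (Lam_conj hf) (Lam_vert hk hf) hu hue

/-! ## the conductor bound of the starting library -/

/-- the parameters at infinity -/
noncomputable def muk (k : ℕ) : Fin 2 → ℂ := ![-(((k : ℂ) - 1) / 2), -(((k : ℂ) + 1) / 2)]

lemma cpow_inv' {x : ℝ} (hx : 0 < x) (s : ℂ) : ((x⁻¹ : ℝ) : ℂ) ^ s = (x : ℂ) ^ (-s) := by
  rw [Complex.cpow_neg]
  refine eq_inv_of_mul_eq_one_left ?_
  rw [← Complex.mul_cpow_ofReal_nonneg (by positivity) hx.le, ← Complex.ofReal_mul, inv_mul_cancel₀ hx.ne',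
    Complex.ofReal_one, Complex.one_cpow]

lemma cpow_sqrt {x : ℝ} (hx : 0 < x) (s : ℂ) : ((Real.sqrt x : ℝ) : ℂ) ^ s = (x : ℂ) ^ (s / 2) := by
  have h1 : (x : ℂ) = ((Real.sqrt x : ℝ) : ℂ) * ((Real.sqrt x : ℝ) : ℂ) := by
    rw [← Complex.ofReal_mul, Real.mul_self_sqrt hx.le]
  have h2 : ((Real.sqrt x : ℝ) : ℂ) ≠ 0 := by exact_mod_cast (Real.sqrt_pos.2 hx).ne'
  rw [h1, Complex.mul_cpow_ofReal_nonneg (Real.sqrt_nonneg x) (Real.sqrt_nonneg x),
    ← Complex.cpow_add _ _ h2]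
  congr 1
  ring

lemma gaf_muk {c : ℝ} (hc : c = Real.sqrt N / (2 * Real.pi)) (k : ℕ) :
    ∃ r : ℂ, r ≠ 0 ∧ ∀ s : ℂ, Hg c ((k : ℝ) / 2) (s - 1 / 2) = r * H353.E.gaf (N : ℝ) (muk k) s := by
  have hpi := Real.pi_pos
  have hN : (0 : ℝ) < N := by exact_mod_cast Nat.pos_of_ne_zero (NeZero.ne N)
  have hs := sqrtN_pos (N := N)
  have hc0 : 0 < c := by rw [hc]; positivity
  have hcc : (c : ℂ) ≠ 0 := by exact_mod_cast hc0.ne'
  have h2pi0 : (0 : ℝ) < 2 * Real.pi := by positivity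
  have h2pi : (((2 * Real.pi : ℝ)) : ℂ) ≠ 0 := by exact_mod_cast h2pi0.ne'
  refine ⟨(c : ℂ) ^ (-(1 / 2) : ℂ) * (((2 * Real.pi : ℝ)) : ℂ) ^ (((k : ℂ) - 1) / 2) / 2, ?_, ?_⟩
  · refine div_ne_zero (mul_ne_zero ?_ ?_) two_ne_zero
    · rw [Ne, Complex.cpow_eq_zero_iff]; tauto
    · rw [Ne, Complex.cpow_eq_zero_iff]; tauto
  intro s
  unfold Hg H353.E.gaf muk
  rw [Fin.prod_univ_two]
  simp only [Matrix.cons_val_zero, Matrix.cons_val_one]
  have e1 : Gammaℝ (s - -(((k : ℂ) - 1) / 2)) * Gammaℝ (s - -(((k : ℂ) + 1) / 2)) =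
      2 * (((2 * Real.pi : ℝ)) : ℂ) ^ (-(s + ((k : ℂ) - 1) / 2)) * Complex.Gamma (s + ((k : ℂ) - 1) / 2) := by
    have h0 := Complex.Gammaℝ_mul_Gammaℝ_add_one (s + ((k : ℂ) - 1) / 2)
    rw [Complex.Gammaℂ_def] at h0
    have h1 : s - -(((k : ℂ) - 1) / 2) = s + ((k : ℂ) - 1) / 2 := by ring
    have h2 : s - -(((k : ℂ) + 1) / 2) = s + ((k : ℂ) - 1) / 2 + 1 := by ring
    rw [h1, h2, h0]
    push_cast
    rfl
  have e2 : (c : ℂ) ^ (s - 1 / 2) = (c : ℂ) ^ s * (c : ℂ) ^ (-(1 / 2) : ℂ) := by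
    rw [← Complex.cpow_add _ _ hcc]
    congr 1
  have e3 : (c : ℂ) ^ s = ((N : ℝ) : ℂ) ^ (s / 2) * (((2 * Real.pi : ℝ)) : ℂ) ^ (-s) := by
    have h1 : (c : ℂ) = ((Real.sqrt N : ℝ) : ℂ) * (((2 * Real.pi)⁻¹ : ℝ) : ℂ) := by
      rw [hc, div_eq_mul_inv, Complex.ofReal_mul]
    rw [h1, Complex.mul_cpow_ofReal_nonneg hs.le (by positivity), cpow_inv' h2pi0, cpow_sqrt hN]
  have e4 : (((2 * Real.pi : ℝ)) : ℂ) ^ (-(s + ((k : ℂ) - 1) / 2)) * (((2 * Real.pi : ℝ)) : ℂ) ^ (((k : ℂ) - 1) / 2) =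
      (((2 * Real.pi : ℝ)) : ℂ) ^ (-s) := by
    rw [← Complex.cpow_add _ _ h2pi]
    congr 1
    ring
  have e5 : s - 1 / 2 + (((k : ℝ) / 2 : ℝ) : ℂ) = s + ((k : ℂ) - 1) / 2 := by
    push_cast
    ring
  rw [e1, e2, e3, e5]
  linear_combination (-((c : ℂ) ^ (-(1 / 2) : ℂ) * ((N : ℝ) : ℂ) ^ (s / 2) * Complex.Gamma (s + ((k : ℂ) - 1) / 2))) * e4

lemma cond_le (hk : 1 ≤ k) (y : ℝ) :
    Real.log (Pool.Agent.W355.UN.cond (N : ℝ) (muk k) y) ≤
      Real.log N + 2 * Real.log (2 + k) + 2 * Real.log (1 + |y|) := by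
  have hN : (1 : ℝ) ≤ N := by exact_mod_cast Nat.one_le_iff_ne_zero.2 (NeZero.ne N)
  have hk1 : (1 : ℝ) ≤ k := by exact_mod_cast hk
  have hy := abs_nonneg y
  have hb : ∀ j : Fin 2, 1 + ‖(y : ℂ) * I - muk k j‖ ≤ (2 + k) * (1 + |y|) := by
    intro j
    have h1 : ‖(y : ℂ) * I‖ = |y| := by simp
    have h2 : ‖muk k j‖ ≤ ((k : ℝ) + 1) / 2 := by
      fin_cases j
      · show ‖-(((k : ℂ) - 1) / 2)‖ ≤ _
        rw [norm_neg, show ((k : ℂ) - 1) / 2 = ((((k : ℝ) - 1) / 2 : ℝ) : ℂ) by push_cast; ring, Complex.norm_real,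
          Real.norm_eq_abs, abs_of_nonneg (by linarith)]
        linarith
      · show ‖-(((k : ℂ) + 1) / 2)‖ ≤ _
        rw [norm_neg, show ((k : ℂ) + 1) / 2 = ((((k : ℝ) + 1) / 2 : ℝ) : ℂ) by push_cast; ring, Complex.norm_real,
          Real.norm_eq_abs, abs_of_nonneg (by linarith)]
    have h3 := norm_sub_le ((y : ℂ) * I) (muk k j)
    rw [h1] at h3
    nlinarith
  unfold Pool.Agent.W355.UN.cond
  rw [Fin.prod_univ_two]
  have h0 : 0 < (1 + ‖(y : ℂ) * I - muk k 0‖) := by positivity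
  have h1 : 0 < (1 + ‖(y : ℂ) * I - muk k 1‖) := by positivity
  rw [Real.log_mul (by positivity) (by positivity), Real.log_mul h0.ne' h1.ne']
  have hlog : ∀ j : Fin 2, Real.log (1 + ‖(y : ℂ) * I - muk k j‖) ≤ Real.log (2 + k) + Real.log (1 + |y|) := by
    intro j
    rw [← Real.log_mul (by positivity) (by positivity)]
    exact Real.log_le_log (by positivity) (hb j)
  have := hlog 0
  have := hlog 1
  linarith

lemma le_cond {y : ℝ} (hy : 1 ≤ y) : Real.log y ≤ Real.log (Pool.Agent.W355.UN.cond (N : ℝ) (muk k) y) := by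
  have hN : (1 : ℝ) ≤ N := by exact_mod_cast Nat.one_le_iff_ne_zero.2 (NeZero.ne N)
  apply Real.log_le_log (by linarith)
  unfold Pool.Agent.W355.UN.cond
  rw [Fin.prod_univ_two]
  have hb : ∀ j : Fin 2, y ≤ 1 + ‖(y : ℂ) * I - muk k j‖ := by
    intro j
    have h1 : |((y : ℂ) * I - muk k j).im| ≤ ‖(y : ℂ) * I - muk k j‖ := Complex.abs_im_le_norm _
    have h2 : ((y : ℂ) * I - muk k j).im = y := by
      fin_cases j
      · show ((y : ℂ) * I - -(((k : ℂ) - 1) / 2)).im = y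
        rw [show ((k : ℂ) - 1) / 2 = ((((k : ℝ) - 1) / 2 : ℝ) : ℂ) by push_cast; ring]
        simp
      · show ((y : ℂ) * I - -(((k : ℂ) + 1) / 2)).im = y
        rw [show ((k : ℂ) + 1) / 2 = ((((k : ℝ) + 1) / 2 : ℝ) : ℂ) by push_cast; ring]
        simp
    rw [h2, abs_of_nonneg (by linarith)] at h1
    linarith
  have h0 := hb 0
  have h1 := hb 1
  have h2 : y * 1 ≤ (1 + ‖(y : ℂ) * I - muk k 0‖) * (1 + ‖(y : ℂ) * I - muk k 1‖) :=
    mul_le_mul h0 (by linarith) zero_le_one (by linarith)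
  nlinarith

theorem ul_of (hk : 1 ≤ k) (hf : W388.IsNewf N k f ε) {u : ℂ} (hu : u ≠ 0) (hue : u * ε = conj u)
    {Z : ℂ → ℂ} (hFE : W388.FE2 k N 1 Z) (hL : IsL (lm f) Z) :
    ∃ (B : ℝ → ℝ) (r : ℂ), Pool.Agent.W355.UN.UL 2 B (N : ℝ) 0 (muk k) (fun s => Xf f u (s - 1 / 2))
      (fun s => r * Z s) := by
  have hN : (1 : ℝ) ≤ N := by exact_mod_cast Nat.one_le_iff_ne_zero.2 (NeZero.ne N)
  have hk1 : (1 : ℝ) ≤ k := by exact_mod_cast hk
  have hD := ldata hk hf hu hue hFE hL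
  have hF := frm_newf hk hf
  have hC := cg_of hF hL hD
  have hrgt := rgt_of hF hL
  obtain ⟨r0, hr0, hr⟩ := gaf_muk (N := N) rfl k
  choose! cc KK hcc hKK hb using hrgt
  obtain ⟨v, hv⟩ : ∃ v : ℂ, v = u * ((Real.sqrt N / (2 * Real.pi) : ℝ) : ℂ) ^ ((k : ℂ) / 2) := ⟨_, rfl⟩
  have hv0 : v ≠ 0 := by rw [hv]; exact hD.u_ne
  refine ⟨fun ρ => |KK ρ|, v * r0, by norm_num, hN, fun ρ => abs_nonneg _, le_rfl, ?_, ?_, ?_, ?_, ?_, ?_⟩
  · intro j
    fin_cases j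
    · show (-(((k : ℂ) - 1) / 2)).re ≤ 1 / 2
      rw [show ((k : ℂ) - 1) / 2 = ((((k : ℝ) - 1) / 2 : ℝ) : ℂ) by push_cast; ring, Complex.neg_re, Complex.ofReal_re]
      linarith
    · show (-(((k : ℂ) + 1) / 2)).re ≤ 1 / 2
      rw [show ((k : ℂ) + 1) / 2 = ((((k : ℝ) + 1) / 2 : ℝ) : ℂ) by push_cast; ring, Complex.neg_re, Complex.ofReal_re]
      linarith
  · obtain ⟨K, hK, hKb⟩ := hC.slow
    refine slow_of (K := K * 3) ((hC.cf.diff).comp (by fun_prop : Differentiable ℂ fun s : ℂ => s - 1 / 2))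
      (by positivity) fun z => (hKb _).trans (Real.exp_le_exp.2 ?_)
    have h1 : ‖z - 1 / 2‖ ≤ ‖z‖ + 1 / 2 := by
      refine (norm_sub_le _ _).trans ?_
      have : ‖(1 / 2 : ℂ)‖ = 1 / 2 := by norm_num
      rw [this]
    have h2 : 1 + ‖z - 1 / 2‖ ≤ 2 * (1 + ‖z‖) := by
      have := norm_nonneg z
      linarith
    have h3 : (1 + ‖z - 1 / 2‖) ^ (3 / 2 : ℝ) ≤ (2 * (1 + ‖z‖)) ^ (3 / 2 : ℝ) :=
      Real.rpow_le_rpow (by positivity) h2 (by norm_num)
    rw [Real.mul_rpow (by norm_num) (by positivity)] at h3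
    have h4 : (2 : ℝ) ^ (3 / 2 : ℝ) ≤ 3 := by
      have h5 : ((2 : ℝ) ^ (3 / 2 : ℝ)) ^ 2 = 8 := by
        rw [← Real.rpow_natCast, ← Real.rpow_mul (by norm_num)]
        norm_num
      have h6 : (0 : ℝ) ≤ (2 : ℝ) ^ (3 / 2 : ℝ) := by positivity
      nlinarith
    have h7 : (0 : ℝ) ≤ (1 + ‖z‖) ^ (3 / 2 : ℝ) := by positivity
    calc K * (1 + ‖z - 1 / 2‖) ^ (3 / 2 : ℝ) ≤ K * (3 * (1 + ‖z‖) ^ (3 / 2 : ℝ)) := by
          apply mul_le_mul_of_nonneg_left _ hK.le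
          nlinarith
      _ = _ := by ring
  · refine ⟨1, by simp, fun s => ?_⟩
    show Xf f u (s - 1 / 2) = 1 * conj (Xf f u (1 - conj s - 1 / 2))
    have h1 : (1 - conj s - 1 / 2 : ℂ) = -(conj (s - 1 / 2)) := by
      rw [map_sub, map_div₀, map_one, map_ofNat]
      ring
    rw [h1, hC.cf.symm, Complex.conj_conj, one_mul]
  · intro s hs
    show Xf f u (s - 1 / 2) = H353.E.gaf (N : ℝ) (muk k) s * (v * r0 * Z s)
    have h1 : (s - 1 / 2 : ℂ).re = s.re - 1 / 2 := by simp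
    rw [hD.eq (s - 1 / 2) (Or.inr (by rw [h1]; linarith)), hr s, add_sub_cancel, hv]
    ring
  · intro s hs
    have h1 := (hb ((s.re - 1)) (by linarith) s (by linarith)).1
    have h2 := hcc (s.re - 1) (by linarith)
    have h3 : Z s ≠ 0 := by
      intro h0
      rw [h0, norm_zero] at h1
      linarith
    exact mul_ne_zero (mul_ne_zero hv0 hr0) h3
  · intro ρ hρ hρ1 s hs
    have h1 := (hb ρ hρ s (by linarith)).2.2
    have h2 : logDeriv (fun s => v * r0 * Z s) s = logDeriv Z s := logDeriv_const_mul s _ (mul_ne_zero hv0 hr0) 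
    rw [h2]
    have h3 := le_abs_self (KK ρ)
    have h4 := abs_nonneg (KK ρ)
    push_cast
    linarith

lemma heat_shift (X : ℂ → ℂ) (τ : ℝ) (a s : ℂ) :
    Pool.Agent.W169.HF.heat τ (fun s => X (s - a)) s = Pool.Agent.W169.HF.heat τ X (s - a) := by
  unfold Pool.Agent.W169.HF.heat
  congr 1
  refine integral_congr_ae (Eventually.of_forall fun v => ?_)
  simp only
  congr 2
  ring

lemma iter_shift (g : ℂ → ℂ) (n : ℕ) (a s : ℂ) :
    iteratedDeriv n (fun s => g (s - a)) s = iteratedDeriv n g (s - a) := by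
  have h := iteratedDeriv_comp_add_const n g (-a)
  have h1 : (fun s => g (s - a)) = fun s => g (s + -a) := by
    funext s
    rw [sub_eq_add_neg]
  rw [h1, h, sub_eq_add_neg]

/-- **All hypotheses for newforms.** -/
theorem all_of (hk : 1 ≤ k) (hf : W388.IsNewf N k f ε) : ∃ (u : ℂ) (H Z : ℂ → ℂ), u ≠ 0 ∧
    GG 1 H (Xf f u) Z ∧ (∀ s : ℂ, Xf f u s = 0 → |s.re| ≤ 1 / 2) ∧ AppX (Xf f u) ∧ LowX (Xf f u) ∧
    HugeX (Xf f u) := by
  obtain ⟨u, hu, hue⟩ := exists_unit hf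
  obtain ⟨Z, hFE, hL⟩ := exists_Z hk hf
  have hD := ldata hk hf hu hue hFE hL
  have hF := frm_newf hk hf
  have hG := gg_of hF hL hD
  have hstrip := strip_of hF hL hD
  have hC := hG.cg
  obtain ⟨B, r, hUL⟩ := ul_of hk hf hu hue hFE hL
  obtain ⟨K0, hK0, hslow⟩ := hC.slow
  have hne : ∃ z, Xf f u z ≠ 0 := by
    refine ⟨1, fun h0 => ?_⟩
    have := hstrip 1 h0
    norm_num at this
  refine ⟨u, _, Z, hu, hG, hstrip, ?_, ?_, ?_⟩
  · exact Pool.Agent.Y275.GL.had1 _ hC.cf.diff hC.cf.symm hne ⟨K0, hK0, hslow⟩ hstrip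
  · obtain ⟨C, hCp, hmain⟩ := Pool.Agent.TH839.UH.main_all (hUL.hB 1)
    have hN : (1 : ℝ) ≤ N := by exact_mod_cast Nat.one_le_iff_ne_zero.2 (NeZero.ne N)
    obtain ⟨g0, -⟩ := Pool.Agent.Y275.GL.hht (Xf f u) (slow_of hC.cf.diff hK0 hslow) hC.cf.symm hne hstrip
    obtain ⟨D, hDd⟩ : ∃ D : ℝ, D = 2 + (Real.log N + 2 * Real.log (2 + k)) + 2 * Real.log 2 := ⟨_, rfl⟩
    refine ⟨4 * C, by positivity, ⌈2 * C * D⌉₊, ?_⟩
    intro n hn s hs hbad
    have hn' : 2 * C * D ≤ n := (Nat.le_ceil _).trans (by exact_mod_cast hn)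
    obtain ⟨hb1, hb2⟩ := hbad
    have h1 := hmain 2 (N : ℝ) 0 (muk k) _ _ hUL zero_le_one 0 n (s + 1 / 2) le_rfl
    have him : (s + 1 / 2 : ℂ).im = s.im := by simp
    have hre : (s + 1 / 2 : ℂ).re = s.re + 1 / 2 := by simp
    have hheat : Pool.Agent.W169.HF.heat 0 (fun s => Xf f u (s - 1 / 2)) = fun s => Xf f u (s - 1 / 2) := by
      funext z
      rw [heat_shift, g0]
    rw [him, hre, hheat] at h1
    have h2 := cond_le (N := N) hk s.im
    have h3 : Real.log (1 + |s.im|) ≤ Real.log 2 + n / (4 * C) := by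
      have h4 : 1 + |s.im| ≤ 2 * Real.exp (n / (4 * C)) := by
        have : 1 ≤ Real.exp (n / (4 * C)) := Real.one_le_exp (by positivity)
        linarith
      have h5 := Real.log_le_log (by positivity) h4
      rwa [Real.log_mul (by norm_num) (Real.exp_pos _).ne', Real.log_exp] at h5
    have h6 : C * (((2 : ℕ) : ℝ) + Real.log (Pool.Agent.W355.UN.cond (N : ℝ) (muk k) s.im)) ≤ n := by
      have h7 : ((2 : ℕ) : ℝ) + Real.log (Pool.Agent.W355.UN.cond (N : ℝ) (muk k) s.im) ≤ D + 2 * (n / (4 * C)) := by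
        rw [hDd]
        push_cast
        linarith
      calc _ ≤ C * (D + 2 * (n / (4 * C))) := mul_le_mul_of_nonneg_left h7 hCp.le
        _ = C * D + n / 2 := by field_simp; ring
        _ ≤ n := by linarith
    obtain ⟨h7, h8⟩ := h1 (by rw [zero_mul, add_zero]; exact h6) (by
      rw [iter_shift]
      rw [add_sub_cancel_right]
      exact hb1)
    rw [iter_shift, add_sub_cancel_right] at h8
    rcases hb2 with h9 | h9
    · exact h9 (by linarith)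
    · exact h8 h9
  · obtain ⟨C, hCp, hmain⟩ := Pool.Agent.TH839.UH.main_all (hUL.hB 1)
    refine ⟨max C 1, 2, le_max_right _ _, le_rfl, ?_⟩
    intro t τ s ht hτ hτ8 hX hst hbad
    obtain ⟨hb1, hb2⟩ := hbad
    have h1 := hmain 2 (N : ℝ) 0 (muk k) _ _ hUL zero_le_one τ 0 (s + 1 / 2) hτ.le
    have him : (s + 1 / 2 : ℂ).im = s.im := by simp
    have hre : (s + 1 / 2 : ℂ).re = s.re + 1 / 2 := by simp
    have hheat : Pool.Agent.W169.HF.heat τ (fun s => Xf f u (s - 1 / 2)) =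
        fun s => Pool.Agent.W169.HF.heat τ (Xf f u) (s - 1 / 2) := by
      funext z
      rw [heat_shift]
    rw [him, hre, hheat, iter_shift, iter_shift, add_sub_cancel_right] at h1
    have h2 := le_cond (N := N) (k := k) (y := s.im) (by rw [hst]; linarith)
    obtain ⟨ℓ, hℓ⟩ : ∃ ℓ : ℝ, ℓ = ((2 : ℕ) : ℝ) + Real.log (Pool.Agent.W355.UN.cond (N : ℝ) (muk k) s.im) := ⟨_, rfl⟩
    rw [← hℓ] at h1
    have h3 : Real.log t ≤ ℓ := by
      rw [hℓ, ← hst]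
      push_cast
      linarith
    have h4 : 0 < Real.log t := Real.log_pos (by linarith)
    have h5 : C ≤ τ * ℓ := by
      have : τ * Real.log t ≤ τ * ℓ := mul_le_mul_of_nonneg_left h3 hτ.le
      have := le_max_left C 1
      linarith
    obtain ⟨h7, h8⟩ := h1 (by
      rw [Nat.cast_zero, zero_add]
      have h6 : C * ℓ ≤ τ * ℓ * ℓ := mul_le_mul_of_nonneg_right h5 (by linarith)
      calc _ ≤ τ * ℓ * ℓ := h6
        _ = _ := by ring) (by rw [iteratedDeriv_zero]; exact hb1)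
    rw [zero_add, iteratedDeriv_one] at h8
    rcases hb2 with h9 | h9
    · exact h9 (by linarith)
    · exact h8 h9

end Pool.Agent.Y771.NF
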