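import Pool.Agent.Y771.NF.Ram
import Pool.Agent.W388.TW.D0
import Pool.Agent.W97.TW.Lfun

set_option autoImplicit false

/-!
# Holomorphic newforms as instances of `Frm`
-/

namespace Pool.Agent.Y771.NF

open UpperHalfPlane hiding I
open MatrixGroups CongruenceSubgroup Filter Topology Complex
open Pool.Agent.Y671.GL
open scoped ComplexConjugate

variable {N : ℕ} [NeZero N] {k : ℕ} {f : CuspForm (Gamma0 N : Subgroup (GL (Fin 2) ℝ)) (k : ℤ)} {ε : ℝ}

/-- normalised coefficients -/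
noncomputable def lm {N k : ℕ} (f : CuspForm (Gamma0 N : Subgroup (GL (Fin 2) ℝ)) (k : ℤ)) (n : ℕ) : ℂ :=
  (W388.lamf f n : ℂ)

omit [NeZero N] in
theorem coeff_real (hf : W388.IsNewf N k f ε) (n : ℕ) :
    (qExpansion 1 f).coeff n = (((qExpansion 1 f).coeff n).re : ℂ) := by
  apply Complex.ext
  · simp
  · simp [hf.real n]

theorem coeff_zero : (qExpansion 1 f).coeff 0 = 0 := Pool.Agent.W97.TW.A_zero f

theorem aa_lm (hf : W388.IsNewf N k f ε) (n : ℕ) : aa k (lm f) n = (qExpansion 1 f).coeff n := by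
  unfold aa lm W388.lamf
  rcases Nat.eq_zero_or_pos n with rfl | hn
  · rw [coeff_zero]
    simp
  · have hn0 : (0 : ℝ) < n := by exact_mod_cast hn
    rw [← Complex.ofReal_mul, Int.cast_natCast, div_mul_cancel₀ _ (Real.rpow_pos_of_pos hn0 _).ne',
      ← coeff_real hf]

theorem im_of_re {z : ℂ} (hz : 0 < z.re) : 0 < (I * z / (2 * Real.pi)).im := by
  have h1 : I * z / (2 * Real.pi) = ((1 / (2 * Real.pi) : ℝ) : ℂ) * (I * z) := by
    push_cast; ring
  rw [h1, Complex.im_ofReal_mul]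
  have h2 : (I * z).im = z.re := by simp
  rw [h2]
  have := Real.pi_pos
  positivity

theorem im_val (z : ℂ) : (I * z / (2 * Real.pi)).im = z.re / (2 * Real.pi) := by
  have h1 : I * z / (2 * Real.pi) = ((1 / (2 * Real.pi) : ℝ) : ℂ) * (I * z) := by
    push_cast; ring
  rw [h1, Complex.im_ofReal_mul]
  have h2 : (I * z).im = z.re := by simp
  rw [h2]
  ring

/-- `Φ(z) = f(iz/2π)` -/
theorem Ph_lm (hf : W388.IsNewf N k f ε) {z : ℂ} (hz : 0 < z.re) :
    Ph k (lm f) z = f (ofComplex (I * z / (2 * Real.pi))) := by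
  unfold Ph
  rw [← (Pool.Agent.W97.TW.hasSum_f f (im_of_re hz)).tsum_eq]
  refine tsum_congr fun n => ?_
  rw [aa_lm hf]
  show _ = (qExpansion 1 f).coeff n * _
  congr 2
  have : (Real.pi : ℂ) ≠ 0 := by exact_mod_cast Real.pi_ne_zero
  field_simp
  rw [Complex.I_sq]
  ring

theorem bd_lm (hf : W388.IsNewf N k f ε) :
    ∃ C : ℝ, ∀ z : ℂ, 0 < z.re → ‖Ph k (lm f) z‖ ≤ C * z.re ^ (-((k : ℝ) / 2)) := by
  obtain ⟨C, hC⟩ := CuspFormClass.exists_bound (Γ := (Gamma0 N : Subgroup (GL (Fin 2) ℝ))) f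
  refine ⟨C * (2 * Real.pi) ^ ((k : ℝ) / 2), fun z hz => ?_⟩
  rw [Ph_lm hf hz]
  have h1 := hC (ofComplex (I * z / (2 * Real.pi)))
  have h2 : (ofComplex (I * z / (2 * Real.pi))).im = z.re / (2 * Real.pi) := by
    rw [ofComplex_apply_of_im_pos (im_of_re hz)]
    exact im_val z
  rw [h2] at h1
  refine h1.trans (le_of_eq ?_)
  have hpi := Real.pi_pos
  rw [Int.cast_natCast, Real.div_rpow hz.le (by positivity), Real.rpow_neg hz.le]
  have h3 : 0 < z.re ^ ((k : ℝ) / 2) := by positivity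
  have h4 : 0 < (2 * Real.pi) ^ ((k : ℝ) / 2) := by positivity
  field_simp

theorem re_dual {q : ℕ} (hq : 1 ≤ q) {z : ℂ} (hz : 0 < z.re) (b : ℤ) :
    0 < (4 * Real.pi ^ 2 / (q ^ 2 * z) - 2 * Real.pi * I * b / q : ℂ).re := by
  have hz0 : z ≠ 0 := by
    intro h; rw [h] at hz; simp at hz
  have h1 : (4 * Real.pi ^ 2 / (q ^ 2 * z) : ℂ) = ((4 * Real.pi ^ 2 / q ^ 2 : ℝ) : ℂ) * z⁻¹ := by
    push_cast
    field_simp
  have h2 : (2 * Real.pi * I * b / q : ℂ) = ((2 * Real.pi * b / q : ℝ) : ℂ) * I := by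
    push_cast
    ring
  rw [h1, h2, sub_re, Complex.re_ofReal_mul, Complex.re_ofReal_mul, Complex.inv_re, Complex.I_re, mul_zero, sub_zero]
  have hq0 : (0 : ℝ) < q := by exact_mod_cast hq
  have := Real.pi_pos
  have := Complex.normSq_pos.2 hz0
  positivity

theorem cusp_lm (hf : W388.IsNewf N k f ε) (q : ℕ) (a b : ℤ) (hq : 1 ≤ q) (hN : N ∣ q)
    (hab : (q : ℤ) ∣ a * b - 1) (z : ℂ) (hz : 0 < z.re) :
    Ph k (lm f) (z + 2 * Real.pi * I * a / q) = (2 * Real.pi / (I * q * z)) ^ k *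
        Ph k (lm f) (4 * Real.pi ^ 2 / (q ^ 2 * z) - 2 * Real.pi * I * b / q) := by
  have hz0 : z ≠ 0 := by
    intro h; rw [h] at hz; simp at hz
  have hqC : (q : ℂ) ≠ 0 := by exact_mod_cast (by omega : q ≠ 0)
  have hpi : (Real.pi : ℂ) ≠ 0 := by exact_mod_cast Real.pi_ne_zero
  have hz1 : 0 < (z + 2 * Real.pi * I * a / q : ℂ).re := by
    have h2 : (2 * Real.pi * I * a / q : ℂ) = ((2 * Real.pi * a / q : ℝ) : ℂ) * I := by
      push_cast
      ring
    rw [h2, add_re, Complex.re_ofReal_mul, Complex.I_re, mul_zero, add_zero]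
    exact hz
  rw [Ph_lm hf hz1, Ph_lm hf (re_dual hq hz b)]
  obtain ⟨g, hg⟩ := hab
  obtain ⟨w, hw⟩ : ∃ w : ℂ, w = I * (z + 2 * Real.pi * I * a / q) / (2 * Real.pi) := ⟨_, rfl⟩
  have hwi : 0 < w.im := by rw [hw]; exact im_of_re hz1
  have h1 := Pool.Agent.W97.TW.f_gamma f (a := b) (b := g) (c := q) (d := a) (by linarith)
    (by exact_mod_cast hN) hwi
  have hI : I ^ 2 = -1 := Complex.I_sq
  have e1 : (((q : ℤ) : ℂ) * w + a) = q * (I * z / (2 * Real.pi)) := by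
    rw [hw]
    push_cast
    field_simp
    linear_combination (2 * Real.pi * (a : ℂ)) * hI
  have hgC : (a : ℂ) * b - 1 = q * g := by exact_mod_cast hg
  have e2 : ((b : ℂ) * w + g) / (((q : ℤ) : ℂ) * w + a) =
      I * (4 * Real.pi ^ 2 / (q ^ 2 * z) - 2 * Real.pi * I * b / q) / (2 * Real.pi) := by
    rw [e1, div_eq_iff (by
      apply mul_ne_zero hqC
      apply div_ne_zero (mul_ne_zero Complex.I_ne_zero hz0)
      exact mul_ne_zero two_ne_zero hpi)]
    rw [hw]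
    field_simp
    linear_combination (-4 * Real.pi : ℂ) * hgC + (2 * b * I * z * q + 4 * Real.pi * a * b - 4 * Real.pi) * hI
  rw [e2, e1, hw] at h1
  rw [h1, ← mul_assoc, zpow_natCast, ← mul_pow]
  have e3 : (2 * Real.pi / (I * q * z) * (q * (I * z / (2 * Real.pi))) : ℂ) = 1 := by
    field_simp
  rw [e3, one_pow, one_mul]


theorem pre_lm (hk : 1 ≤ k) (hf : W388.IsNewf N k f ε) : Pre k N (lm f) where
  k_pos := hk
  N_pos := Nat.pos_of_ne_zero (NeZero.ne N)
  zero := by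
    unfold lm W388.lamf
    rw [coeff_zero]
    simp
  pol := by
    obtain ⟨C, hC⟩ := Pool.Agent.W97.TW.A_bound f
    refine ⟨|C|, k, fun n => ?_⟩
    rw [aa_lm hf]
    rcases Nat.eq_zero_or_pos n with rfl | hn
    · rw [coeff_zero, norm_zero]
      positivity
    · have h1 := hC n hn
      have hx1 : (1 : ℝ) ≤ n := by exact_mod_cast hn
      refine h1.trans ?_
      have h2 : (n : ℝ) ^ (((k : ℤ) : ℝ) / 2) ≤ (n : ℝ) ^ k := by
        rw [← Real.rpow_natCast]
        apply Real.rpow_le_rpow_of_exponent_le hx1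
        have : (0 : ℝ) ≤ k := Nat.cast_nonneg k
        rw [Int.cast_natCast]
        linarith
      calc C * (n : ℝ) ^ (((k : ℤ) : ℝ) / 2) ≤ |C| * (n : ℝ) ^ (((k : ℤ) : ℝ) / 2) :=
            mul_le_mul_of_nonneg_right (le_abs_self C) (by positivity)
        _ ≤ _ := mul_le_mul_of_nonneg_left h2 (abs_nonneg C)
  bd := bd_lm hf
  cusp := fun q a b hq hN hab z hz => cusp_lm hf q a b hq hN hab z hz

omit [NeZero N] in
theorem conj_lm (n : ℕ) : conj (lm f n) = lm f n := by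
  unfold lm
  exact Complex.conj_ofReal _

theorem fricke_lm (hf : W388.IsNewf N k f ε) (z : ℂ) (hz : 0 < z.re) :
    Ph k (lm f) (4 * Real.pi ^ 2 / (N * z)) =
      (ε : ℂ) * ((Real.sqrt N : ℝ) * z / (2 * Real.pi)) ^ k * Ph k (fun n => conj (lm f n)) z := by
  have e0 : (fun n => conj (lm f n)) = lm f := funext fun n => conj_lm n
  have hz0 : z ≠ 0 := by
    intro h; rw [h] at hz; simp at hz
  have hN0 : (0 : ℝ) < N := by exact_mod_cast Nat.pos_of_ne_zero (NeZero.ne N)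
  have hNC : (N : ℂ) ≠ 0 := by exact_mod_cast NeZero.ne N
  have hpi : (Real.pi : ℂ) ≠ 0 := by exact_mod_cast Real.pi_ne_zero
  have hpi0 := Real.pi_pos
  have hre : 0 < (4 * Real.pi ^ 2 / (N * z) : ℂ).re := by
    have h1 : (4 * Real.pi ^ 2 / (N * z) : ℂ) = ((4 * Real.pi ^ 2 / N : ℝ) : ℂ) * z⁻¹ := by
      push_cast
      field_simp
    rw [h1, Complex.re_ofReal_mul, Complex.inv_re]
    have := Complex.normSq_pos.2 hz0
    positivity
  rw [e0, Ph_lm hf hre, Ph_lm hf hz]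
  have h1 := hf.fricke (ofComplex (I * z / (2 * Real.pi)))
    (ofComplex (I * (4 * Real.pi ^ 2 / (N * z)) / (2 * Real.pi))) (by
      rw [ofComplex_apply_of_im_pos (im_of_re hz), ofComplex_apply_of_im_pos (im_of_re hre)]
      show I * (4 * Real.pi ^ 2 / (N * z)) / (2 * Real.pi) * (N * (I * z / (2 * Real.pi))) = -1
      field_simp
      rw [Complex.I_sq]
      ring)
  rw [h1]
  congr 2
  rw [ofComplex_apply_of_im_pos (im_of_re hz), zpow_natCast]
  congr 1
  show ((Real.sqrt N : ℝ) : ℂ) * (I * z / (2 * Real.pi)) / I = _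
  field_simp

/-- the nebentypus -/
noncomputable def psN (N : ℕ) (p : ℕ) : ℂ := if p ∣ N then 0 else 1

end Pool.Agent.Y771.NF
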